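import Pool.Agent.Helper7.GJ.GB2

/-! Module BLU: the Brascamp-Lieb inequality. -/

set_option autoImplicit false

open Finset MeasureTheory Filter Topology Matrix
open scoped ENNReal ContDiff

namespace Pool.Agent.Helper44.GJ

open Pool.Agent.Helper44.GF Pool.Agent.Helper44.GN Pool.Agent.Helper44.GH

/-- Integrability of the weighted squares. -/
theorem blu_int (hIN1 : ST_IN1) {n m : ℕ} {p : ℝ} (hp : 2 < p) (hp3 : p < 3) (V : Matrix (Fin n) (Fin m) ℝ)
    (hV : Function.Injective V.mulVec) (w : (Fin m → ℝ) → ℝ) (hw : Continuous w) (C : ℝ) (k : ℕ)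
    (hb : ∀ x, |w x| ≤ C * (1 + ‖x‖) ^ k) (i : Fin n) :
    Integrable (fun x => w x ^ 2 / g2 p (V.mulVec x i) * ee p V x) := by
  by_cases hi : V i = 0
  · have h1 : (fun x : Fin m → ℝ => w x ^ 2 / g2 p (V.mulVec x i) * ee p V x) = fun _ => 0 := by
      funext x
      have h2 : V.mulVec x i = 0 := by
        show V i ⬝ᵥ x = 0
        rw [hi, zero_dotProduct]
      have h3 : g2 p 0 = 0 := by
        unfold g2
        rw [abs_zero, Real.zero_rpow (by linarith), mul_zero]
      rw [h2, h3, div_zero, zero_mul]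
    rw [h1]
    exact integrable_zero _ _ _
  · have h1 := hIN1 n m p V hp hp3.le hV i i hi hi (p - 2) 0 (by linarith) le_rfl (by linarith)
      (fun x => w x ^ 2) (C ^ 2) (k * 2) (hw.pow 2).aestronglyMeasurable (fun x => by
        rw [abs_of_nonneg (sq_nonneg _), ← sq_abs, pow_mul, ← mul_pow]
        exact pow_le_pow_left₀ (abs_nonneg _) (hb x) 2)
    refine (h1.const_mul (1 / (p * (p - 1)))).congr (Eventually.of_forall fun x => ?_)
    show 1 / (p * (p - 1)) * (|V.mulVec x i| ^ (-(p - 2)) * |V.mulVec x i| ^ (-(0 : ℝ)) * w x ^ 2 * ee p V x) =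
      w x ^ 2 / g2 p (V.mulVec x i) * ee p V x
    unfold g2
    rw [neg_zero, Real.rpow_zero, Real.rpow_neg (abs_nonneg _), div_eq_mul_inv (w x ^ 2), mul_inv]
    ring

/-- The density is even. -/
theorem blu_even {n m : ℕ} (p : ℝ) (V : Matrix (Fin n) (Fin m) ℝ) (x : Fin m → ℝ) :
    ee p V (-x) = ee p V x := by
  unfold ee Ph
  congr 2
  refine Finset.sum_congr rfl fun i _ => ?_
  rw [Matrix.mulVec_neg, Pi.neg_apply, abs_neg]

/-- Odd functions have mean zero. -/
theorem blu_odd {n m : ℕ} (p : ℝ) (V : Matrix (Fin n) (Fin m) ℝ) (F : (Fin m → ℝ) → ℝ)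
    (hF : ∀ x, F (-x) = -F x) : IE p V F = 0 := by
  have h1 := integral_neg_eq_self (fun x => F x * ee p V x) (volume : Measure (Fin m → ℝ))
  have h2 : ∫ x, F (-x) * ee p V (-x) = -∫ x, F x * ee p V x := by
    rw [← integral_neg]
    congr 1
    funext x
    rw [blu_even, hF]
    ring
  have h3 : ∫ x, F (-x) * ee p V (-x) = ∫ x, F x * ee p V x := h1
  show ∫ x, F x * ee p V x = 0
  linarith

theorem st_BLU (hBLC : ST_BLC) (hIN1 : ST_IN1) (hIN0 : ST_IN0) : ST_BLU := by
  intro n m p V hp hp3 hV F w hR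
  obtain ⟨hM, -, -⟩ := hIN0 n m p V (by linarith) hV
  obtain ⟨C, k, hb⟩ := hR.gr
  have e0 : es p V (fun _ => 0) = ee p V := by
    funext x
    unfold es
    rw [Finset.sum_eq_zero fun i _ => zero_mul _, neg_zero, Real.exp_zero, one_mul]
  have key := hBLC n m p V hp hp3 hV (fun _ => 0) (fun _ => le_rfl) F w hR
  rw [e0] at key
  have k1 : Mp p V * IE p V (fun x => F x ^ 2) - IE p V F ^ 2
      ≤ Mp p V * IE p V (fun x => ∑ i, w i x ^ 2 / g2 p (V.mulVec x i)) := key
  refine ⟨?_, k1, fun ho => ?_⟩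
  · have h1 : (fun x => (∑ i, w i x ^ 2 / g2 p (V.mulVec x i)) * ee p V x) =
        fun x => ∑ i, w i x ^ 2 / g2 p (V.mulVec x i) * ee p V x := by
      funext x
      rw [Finset.sum_mul]
    rw [h1]
    exact integrable_finsetSum _ fun i _ =>
      blu_int hIN1 hp hp3 V hV (w i) (hR.wc i) C k (fun x => (hb x).2 i) i
  · rw [blu_odd p V F ho] at k1
    have k2 : Mp p V * IE p V (fun x => F x ^ 2) ≤ Mp p V * IE p V (fun x => ∑ i, w i x ^ 2 / g2 p (V.mulVec x i)) := by
      linarith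
    exact le_of_mul_le_mul_left k2 hM

end Pool.Agent.Helper44.GJ
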