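import Pool.Agent.Helper51.GJ.DER

/-! Module CTN: continuity in the matrices. -/

set_option autoImplicit false

open Finset MeasureTheory Filter Topology Matrix
open scoped ENNReal ContDiff

namespace Pool.Agent.Helper44.GJ

open Pool.Agent.Helper44.GF Pool.Agent.Helper44.GN Pool.Agent.Helper44.GH

section ctn

variable {n m : ℕ}

theorem ctn_mv (x : Fin m → ℝ) (i : Fin n) :
    Continuous fun W : Matrix (Fin n) (Fin m) ℝ => W.mulVec x i := by
  unfold Matrix.mulVec dotProduct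
  refine continuous_finsetSum _ fun a _ => Continuous.mul ?_ continuous_const
  exact (continuous_apply a).comp (continuous_apply i)

theorem ctn_near (V : Matrix (Fin n) (Fin m) ℝ) {r : ℝ} (hr : 0 < r) :
    ∀ᶠ W in 𝓝 V, ∀ i a, |W i a - V i a| < r := by
  rw [eventually_all]
  intro i
  rw [eventually_all]
  intro a
  have h1 : Continuous fun W : Matrix (Fin n) (Fin m) ℝ => |W i a - V i a| := by
    refine continuous_abs.comp (Continuous.sub ?_ continuous_const)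
    exact (continuous_apply a).comp (continuous_apply i)
  have h2 := h1.tendsto V
  rw [sub_self, abs_zero] at h2
  exact h2.eventually (gt_mem_nhds hr)

theorem ctn_inj {W : Matrix (Fin n) (Fin m) ℝ} {c : ℝ} (hc : 0 < c)
    (h : ∀ x : Fin m → ℝ, c * ‖x‖ ≤ ‖W.mulVec x‖) : Function.Injective W.mulVec := by
  intro x y hxy
  have h1 := h (x - y)
  rw [Matrix.mulVec_sub, hxy, sub_self, norm_zero] at h1
  have h2 : ‖x - y‖ ≤ 0 := by
    by_contra hcon
    rw [not_le] at hcon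
    have := mul_pos hc hcon
    linarith
  exact sub_eq_zero.1 (norm_le_zero_iff.1 h2)

theorem ctn_dec {W : Matrix (Fin n) (Fin m) ℝ} {c p : ℝ} (hp : 1 ≤ p) (hc : 0 < c) (x : Fin m → ℝ)
    (h : (c * ‖x‖) ^ p ≤ Ph p W x) : ee p W x ≤ Real.exp 1 * Real.exp (-(c * ‖x‖)) := by
  unfold ee
  rw [← Real.exp_add]
  apply Real.exp_le_exp.2
  have hy : 0 ≤ c * ‖x‖ := mul_nonneg hc.le (norm_nonneg x)
  have h2 : c * ‖x‖ - 1 ≤ (c * ‖x‖) ^ p := by
    rcases le_or_gt 1 (c * ‖x‖) with h3 | h3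
    · have h4 : (c * ‖x‖) ^ (1 : ℝ) ≤ (c * ‖x‖) ^ p := Real.rpow_le_rpow_of_exponent_le h3 hp
      rw [Real.rpow_one] at h4
      linarith
    · have h4 : 0 ≤ (c * ‖x‖) ^ p := Real.rpow_nonneg hy p
      linarith
  linarith

theorem ctn_row {W : Matrix (Fin n) (Fin m) ℝ} {K : ℝ} (hK : ∀ i a, |W i a| ≤ K) (x : Fin m → ℝ)
    (i : Fin n) : 1 + |W.mulVec x i| ≤ (1 + m * K) * (1 + ‖x‖) := by
  have h0 := norm_nonneg x
  have h1 : |W.mulVec x i| ≤ (m * K) * ‖x‖ := by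
    unfold Matrix.mulVec dotProduct
    refine (Finset.abs_sum_le_sum_abs _ _).trans
      ((Finset.sum_le_card_nsmul _ _ (K * ‖x‖) fun a _ => ?_).trans (le_of_eq ?_))
    · rw [abs_mul]
      exact mul_le_mul (hK i a) (norm_le_pi_norm x a) (abs_nonneg _) ((abs_nonneg _).trans (hK i a))
    · rw [nsmul_eq_mul, Finset.card_univ, Fintype.card_fin]
      ring
  have h2 : 0 ≤ (m : ℝ) * K := by
    rcases Nat.eq_zero_or_pos m with hm | hm
    · subst hm
      simp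
    · exact mul_nonneg (Nat.cast_nonneg m) ((abs_nonneg _).trans (hK i ⟨0, hm⟩))
  nlinarith

/-- The bounds of the integrands. -/
theorem ctn_bd (hGD : ST_GD) {p : ℝ} (hp : 2 < p) (hp3 : p ≤ 3) {W Z : Matrix (Fin n) (Fin m) ℝ} {A : ℝ}
    (hA : 1 ≤ A) (x : Fin m → ℝ) (h1 : ∀ i, 1 + |W.mulVec x i| ≤ A * (1 + ‖x‖))
    (h2 : ∀ i, 1 + |Z.mulVec x i| ≤ A * (1 + ‖x‖)) :
    |hz p W Z x| ≤ 6 * n * A ^ 3 * (1 + ‖x‖) ^ 3 ∧
    |∑ i, g2 p (W.mulVec x i) * (Z.mulVec x i) ^ 2| ≤ 6 * n * A ^ 3 * (1 + ‖x‖) ^ 3 := by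
  obtain ⟨-, -, -, -, hg0, -, hb1, hb2, -⟩ := hGD p hp hp3
  have h0 := norm_nonneg x
  constructor
  · unfold hz
    refine (Finset.abs_sum_le_sum_abs _ _).trans
      ((Finset.sum_le_card_nsmul _ _ (6 * A ^ 3 * (1 + ‖x‖) ^ 3) fun i _ => ?_).trans
        (le_of_eq ?_))
    · rw [abs_mul]
      have h3 := der_g1 hGD hp hp3 _ _ _ (h1 i)
      have h4 : |Z.mulVec x i| ≤ A * (1 + ‖x‖) := by
        have := h2 i
        linarith
      have h5 := mul_le_mul h3 h4 (abs_nonneg _) (by positivity)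
      have h6 : 3 * (A * (1 + ‖x‖)) ^ 2 * (A * (1 + ‖x‖)) = 3 * A ^ 3 * (1 + ‖x‖) ^ 3 := by ring
      have h7 : 0 ≤ A ^ 3 * (1 + ‖x‖) ^ 3 := by positivity
      linarith
    · rw [nsmul_eq_mul, Finset.card_univ, Fintype.card_fin]
      ring
  · refine (Finset.abs_sum_le_sum_abs _ _).trans
      ((Finset.sum_le_card_nsmul _ _ (6 * A ^ 3 * (1 + ‖x‖) ^ 3) fun i _ => ?_).trans
        (le_of_eq ?_))
    · rw [abs_mul, abs_of_nonneg (hg0 _), abs_of_nonneg (sq_nonneg _)]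
      have h3 : g2 p (W.mulVec x i) ≤ 6 * (A * (1 + ‖x‖)) :=
        (hb2 _).trans (mul_le_mul_of_nonneg_left (h1 i) (by norm_num))
      have h4 : (Z.mulVec x i) ^ 2 ≤ (A * (1 + ‖x‖)) ^ 2 := by
        rw [← sq_abs]
        refine pow_le_pow_left₀ (abs_nonneg _) ?_ 2
        have := h2 i
        linarith
      have h5 := mul_le_mul h3 h4 (sq_nonneg _) (by positivity)
      refine h5.trans (le_of_eq ?_)
      ring
    · rw [nsmul_eq_mul, Finset.card_univ, Fintype.card_fin]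
      ring

/-- A common bound. -/
theorem ctn_K (V : Matrix (Fin n) (Fin m) ℝ) : ∃ K : ℝ, 0 ≤ K ∧ ∀ W : Matrix (Fin n) (Fin m) ℝ,
    (∀ i a, |W i a - V i a| < 1) → ∀ i a, |W i a| ≤ K := by
  refine ⟨1 + ∑ i, ∑ a, |V i a|, ?_, fun W hW i a => ?_⟩
  · have : 0 ≤ ∑ i, ∑ a, |V i a| := Finset.sum_nonneg fun _ _ => Finset.sum_nonneg fun _ _ => abs_nonneg _
    linarith
  · have h1 : |V i a| ≤ ∑ i, ∑ a, |V i a| :=
      (Finset.single_le_sum (f := fun a => |V i a|) (fun _ _ => abs_nonneg _) (Finset.mem_univ a)).trans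
        (Finset.single_le_sum (f := fun i => ∑ a, |V i a|)
          (fun _ _ => Finset.sum_nonneg fun _ _ => abs_nonneg _) (Finset.mem_univ i))
    have h2 := hW i a
    have h3 : |W i a| ≤ |W i a - V i a| + |V i a| := by
      have := abs_add_le (W i a - V i a) (V i a)
      rw [sub_add_cancel] at this
      exact this
    linarith

/-- The uniform bounds near a pair. -/
theorem ctn_all (hGRW : ST_GRW) (hGD : ST_GD) {p : ℝ} (hp : 2 < p) (hp3 : p ≤ 3)
    (V Z : Matrix (Fin n) (Fin m) ℝ) (hV : Function.Injective V.mulVec) :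
    ∃ c D : ℝ, 0 < c ∧ 0 ≤ D ∧ ∀ᶠ P : Matrix (Fin n) (Fin m) ℝ × Matrix (Fin n) (Fin m) ℝ in 𝓝 (V, Z),
      ∀ x : Fin m → ℝ, ee p P.1 x ≤ Real.exp 1 * Real.exp (-(c * ‖x‖)) ∧
      |hz p P.1 P.2 x| ≤ D * (1 + ‖x‖) ^ 3 ∧
      |∑ i, g2 p (P.1.mulVec x i) * (P.2.mulVec x i) ^ 2| ≤ D * (1 + ‖x‖) ^ 3 := by
  obtain ⟨r, c, hr, hc, hG⟩ := hGRW n m V hV
  obtain ⟨K1, hK10, hK1⟩ := ctn_K V
  obtain ⟨K2, hK20, hK2⟩ := ctn_K Z
  set A : ℝ := 1 + m * (K1 + K2) with hA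
  have hA1 : 1 ≤ A := by
    have : 0 ≤ (m : ℝ) * (K1 + K2) := by positivity
    linarith
  refine ⟨c, 6 * n * A ^ 3, hc, by positivity, ?_⟩
  have e1 : ∀ᶠ P : Matrix (Fin n) (Fin m) ℝ × Matrix (Fin n) (Fin m) ℝ in 𝓝 (V, Z),
      ∀ i a, |P.1 i a - V i a| < min r 1 :=
    (continuous_fst.tendsto (V, Z)).eventually (ctn_near V (lt_min hr one_pos))
  have e2 : ∀ᶠ P : Matrix (Fin n) (Fin m) ℝ × Matrix (Fin n) (Fin m) ℝ in 𝓝 (V, Z),
      ∀ i a, |P.2 i a - Z i a| < 1 :=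
    (continuous_snd.tendsto (V, Z)).eventually (ctn_near Z one_pos)
  filter_upwards [e1, e2] with P h1 h2 x
  have h3 : ∀ i a, |P.1 i a| ≤ K1 + K2 := fun i a =>
    (hK1 P.1 (fun i a => (h1 i a).trans_le (min_le_right _ _)) i a).trans (by linarith)
  have h4 : ∀ i a, |P.2 i a| ≤ K1 + K2 := fun i a => (hK2 P.2 h2 i a).trans (by linarith)
  exact ⟨ctn_dec (by linarith) hc x
    ((hG P.1 (fun i a => (h1 i a).trans_le (min_le_left _ _)) x).2 p (by linarith)),
    ctn_bd hGD hp hp3 hA1 x (ctn_row h3 x) (ctn_row h4 x)⟩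

theorem ctn_cee {p : ℝ} (hp : 2 < p) (x : Fin m → ℝ) :
    Continuous fun P : Matrix (Fin n) (Fin m) ℝ × Matrix (Fin n) (Fin m) ℝ => ee p P.1 x := by
  unfold ee Ph
  refine Real.continuous_exp.comp (Continuous.neg (continuous_finsetSum _ fun i _ => ?_))
  exact (continuous_abs.comp ((ctn_mv x i).comp continuous_fst)).rpow_const fun x => Or.inr (by linarith)

theorem ctn_chz (hGD : ST_GD) {p : ℝ} (hp : 2 < p) (hp3 : p ≤ 3) (x : Fin m → ℝ) :
    Continuous fun P : Matrix (Fin n) (Fin m) ℝ × Matrix (Fin n) (Fin m) ℝ => hz p P.1 P.2 x := by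
  obtain ⟨-, -, hc1, -⟩ := hGD p hp hp3
  exact continuous_finsetSum _ fun i _ =>
    (hc1.comp ((ctn_mv x i).comp continuous_fst)).mul ((ctn_mv x i).comp continuous_snd)

theorem ctn_cg2 (hGD : ST_GD) {p : ℝ} (hp : 2 < p) (hp3 : p ≤ 3) (x : Fin m → ℝ) :
    Continuous fun P : Matrix (Fin n) (Fin m) ℝ × Matrix (Fin n) (Fin m) ℝ =>
      ∑ i, g2 p (P.1.mulVec x i) * (P.2.mulVec x i) ^ 2 := by
  obtain ⟨-, -, -, hc2, -⟩ := hGD p hp hp3
  exact continuous_finsetSum _ fun i _ =>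
    (hc2.comp ((ctn_mv x i).comp continuous_fst)).mul (((ctn_mv x i).comp continuous_snd).pow 2)

theorem ctn_mhz (hGD : ST_GD) {p : ℝ} (hp : 2 < p) (hp3 : p ≤ 3) (W Z : Matrix (Fin n) (Fin m) ℝ) :
    Continuous (hz p W Z) := by
  obtain ⟨-, -, hc1, -⟩ := hGD p hp hp3
  exact continuous_finsetSum _ fun i _ => (hc1.comp (GB2.cont_row _ i)).mul (GB2.cont_row Z i)

theorem ctn_mg2 (hGD : ST_GD) {p : ℝ} (hp : 2 < p) (hp3 : p ≤ 3) (W Z : Matrix (Fin n) (Fin m) ℝ) :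
    Continuous fun x : Fin m → ℝ => ∑ i, g2 p (W.mulVec x i) * (Z.mulVec x i) ^ 2 := by
  obtain ⟨-, -, -, hc2, -⟩ := hGD p hp hp3
  exact continuous_finsetSum _ fun i _ => (hc2.comp (GB2.cont_row _ i)).mul ((GB2.cont_row Z i).pow 2)

instance ctn_fc : FirstCountableTopology (Matrix (Fin n) (Fin m) ℝ) :=
  inferInstanceAs (FirstCountableTopology (Fin n → Fin m → ℝ))

end ctn

theorem st_CTN (hGRW : ST_GRW) (hGD : ST_GD) : ST_CTN := by
  intro n m p hp hp3
  have hp1 : (1 : ℝ) ≤ p := by linarith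
  refine ⟨?_, ?_, ?_, ?_⟩
  · rw [isOpen_iff_mem_nhds]
    intro V hV
    obtain ⟨r, c, hr, hc, hG⟩ := hGRW n m V hV
    filter_upwards [ctn_near V hr] with W hW
    exact ctn_inj hc fun x => (hG W hW x).1
  · intro V hV
    apply ContinuousAt.continuousWithinAt
    obtain ⟨c, D, hc, hD, hall⟩ := ctn_all hGRW hGD hp hp3 V V hV
    have key : ContinuousAt (fun P : Matrix (Fin n) (Fin m) ℝ × Matrix (Fin n) (Fin m) ℝ =>
        ∫ x : Fin m → ℝ, ee p P.1 x) (V, V) := by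
      refine continuousAt_of_dominated (bound := fun x : Fin m → ℝ => Real.exp 1 * ((1 + ‖x‖) ^ 0 * Real.exp (-(c * ‖x‖))))
        (Eventually.of_forall fun P => (in0_cont hp1 _).aestronglyMeasurable) ?_
        ((der_int hc 0 m).const_mul _) (Eventually.of_forall fun x => (ctn_cee hp x).continuousAt)
      filter_upwards [hall] with P hP
      refine Eventually.of_forall fun x => ?_
      have he : 0 < ee p P.1 x := Real.exp_pos _
      rw [Real.norm_eq_abs, abs_of_pos he, pow_zero, one_mul]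
      exact (hP x).1
    have h1 : Continuous fun W : Matrix (Fin n) (Fin m) ℝ => (W, W) := by fun_prop
    exact ContinuousAt.comp (f := fun W : Matrix (Fin n) (Fin m) ℝ => (W, W)) key h1.continuousAt
  · rintro ⟨V, Z⟩ hV
    apply ContinuousAt.continuousWithinAt
    obtain ⟨c, D, hc, hD, hall⟩ := ctn_all hGRW hGD hp hp3 V Z hV
    have key : ContinuousAt (fun P : Matrix (Fin n) (Fin m) ℝ × Matrix (Fin n) (Fin m) ℝ =>
        ∫ x : Fin m → ℝ, hz p P.1 P.2 x * ee p P.1 x) (V, Z) := by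
      refine continuousAt_of_dominated (bound := fun x : Fin m → ℝ => D * Real.exp 1 * ((1 + ‖x‖) ^ 3 * Real.exp (-(c * ‖x‖))))
        (Eventually.of_forall fun P =>
          ((ctn_mhz hGD hp hp3 P.1 P.2).mul (in0_cont hp1 _)).aestronglyMeasurable) ?_
        ((der_int hc 3 m).const_mul _)
        (Eventually.of_forall fun x => ((ctn_chz hGD hp hp3 x).mul (ctn_cee hp x)).continuousAt)
      filter_upwards [hall] with P hP
      refine Eventually.of_forall fun x => ?_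
      have he : 0 < ee p P.1 x := Real.exp_pos _
      have h0 := norm_nonneg x
      obtain ⟨b1, b2, b3⟩ := hP x
      rw [Real.norm_eq_abs, abs_mul, abs_of_pos he]
      calc |hz p P.1 P.2 x| * ee p P.1 x ≤ (D * (1 + ‖x‖) ^ 3) * (Real.exp 1 * Real.exp (-(c * ‖x‖))) :=
            mul_le_mul b2 b1 he.le (by positivity)
        _ = _ := by ring
    exact key.neg
  · rintro ⟨V, Z⟩ hV
    apply ContinuousAt.continuousWithinAt
    obtain ⟨c, D, hc, hD, hall⟩ := ctn_all hGRW hGD hp hp3 V Z hV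
    have key : ContinuousAt (fun P : Matrix (Fin n) (Fin m) ℝ × Matrix (Fin n) (Fin m) ℝ =>
        ∫ x : Fin m → ℝ, (hz p P.1 P.2 x ^ 2 - ∑ i, g2 p (P.1.mulVec x i) * (P.2.mulVec x i) ^ 2) *
          ee p P.1 x) (V, Z) := by
      refine continuousAt_of_dominated (bound := fun x : Fin m → ℝ =>
          D * D * Real.exp 1 * ((1 + ‖x‖) ^ 6 * Real.exp (-(c * ‖x‖))) +
          D * Real.exp 1 * ((1 + ‖x‖) ^ 3 * Real.exp (-(c * ‖x‖))))
        (Eventually.of_forall fun P =>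
          ((((ctn_mhz hGD hp hp3 P.1 P.2).pow 2).sub (ctn_mg2 hGD hp hp3 P.1 P.2)).mul
            (in0_cont hp1 _)).aestronglyMeasurable) ?_
        (((der_int hc 6 m).const_mul _).add ((der_int hc 3 m).const_mul _))
        (Eventually.of_forall fun x => ((((ctn_chz hGD hp hp3 x).pow 2).sub (ctn_cg2 hGD hp hp3 x)).mul
          (ctn_cee hp x)).continuousAt)
      filter_upwards [hall] with P hP
      refine Eventually.of_forall fun x => ?_
      have he : 0 < ee p P.1 x := Real.exp_pos _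
      have h0 := norm_nonneg x
      obtain ⟨b1, b2, b3⟩ := hP x
      rw [Real.norm_eq_abs, abs_mul, abs_of_pos he]
      have h1 : |hz p P.1 P.2 x ^ 2 - ∑ i, g2 p (P.1.mulVec x i) * (P.2.mulVec x i) ^ 2| ≤
          (D * (1 + ‖x‖) ^ 3) ^ 2 + D * (1 + ‖x‖) ^ 3 := by
        refine (abs_sub _ _).trans (add_le_add ?_ b3)
        rw [abs_of_nonneg (sq_nonneg _), ← sq_abs]
        exact pow_le_pow_left₀ (abs_nonneg _) b2 2
      calc |hz p P.1 P.2 x ^ 2 - ∑ i, g2 p (P.1.mulVec x i) * (P.2.mulVec x i) ^ 2| * ee p P.1 x ≤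
            ((D * (1 + ‖x‖) ^ 3) ^ 2 + D * (1 + ‖x‖) ^ 3) * (Real.exp 1 * Real.exp (-(c * ‖x‖))) :=
            mul_le_mul h1 b1 he.le (by positivity)
        _ = _ := by ring
    exact key

end Pool.Agent.Helper44.GJ
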