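import Pool.Agent.Helper51.GJ.IN0

/-! Module DER: derivatives of `Mp`. -/

set_option autoImplicit false

open Finset MeasureTheory Filter Topology Matrix
open scoped ENNReal ContDiff

namespace Pool.Agent.Helper44.GJ

open Pool.Agent.Helper44.GF Pool.Agent.Helper44.GN Pool.Agent.Helper44.GH

section der

variable {n m : ℕ} {p : ℝ} (V Z : Matrix (Fin n) (Fin m) ℝ)

theorem der_row (t : ℝ) (x : Fin m → ℝ) (i : Fin n) :
    (V + t • Z).mulVec x i = V.mulVec x i + t * Z.mulVec x i := by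
  rw [Matrix.add_mulVec, Matrix.smul_mulVec, Pi.add_apply, Pi.smul_apply, smul_eq_mul]

theorem der_lin (t : ℝ) (x : Fin m → ℝ) (i : Fin n) :
    HasDerivAt (fun t : ℝ => (V + t • Z).mulVec x i) (Z.mulVec x i) t := by
  have h1 : (fun t : ℝ => (V + t • Z).mulVec x i) = fun t => V.mulVec x i + t * Z.mulVec x i :=
    funext fun t => der_row V Z t x i
  rw [h1]
  have h4 := ((hasDerivAt_id t).mul_const (Z.mulVec x i)).const_add (V.mulVec x i)
  rw [one_mul] at h4
  exact h4

theorem der_hz (hGD : ST_GD) (hp : 2 < p) (hp3 : p ≤ 3) (t : ℝ) (x : Fin m → ℝ) :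
    HasDerivAt (fun t : ℝ => hz p (V + t • Z) Z x)
      (∑ i, g2 p ((V + t • Z).mulVec x i) * (Z.mulVec x i) ^ 2) t := by
  obtain ⟨-, hd, -⟩ := hGD p hp hp3
  unfold hz
  refine HasDerivAt.fun_sum fun i _ => ?_
  have h1 := ((hd ((V + t • Z).mulVec x i)).comp t (der_lin V Z t x i)).mul_const (Z.mulVec x i)
  have h2 : g2 p ((V + t • Z).mulVec x i) * Z.mulVec x i * Z.mulVec x i =
      g2 p ((V + t • Z).mulVec x i) * (Z.mulVec x i) ^ 2 := by ring
  rw [h2] at h1
  exact h1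

theorem der_ee (hGD : ST_GD) (hp : 2 < p) (hp3 : p ≤ 3) (t : ℝ) (x : Fin m → ℝ) :
    HasDerivAt (fun t : ℝ => ee p (V + t • Z) x)
      (-(hz p (V + t • Z) Z x) * ee p (V + t • Z) x) t := by
  obtain ⟨hd, -⟩ := hGD p hp hp3
  have h1 : ∀ i ∈ (Finset.univ : Finset (Fin n)), HasDerivAt (fun t : ℝ => |(V + t • Z).mulVec x i| ^ p)
      (g1 p ((V + t • Z).mulVec x i) * Z.mulVec x i) t := by
    intro i _
    exact (hd ((V + t • Z).mulVec x i)).comp t (der_lin V Z t x i)
  have h2 := (HasDerivAt.fun_sum h1).neg.exp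
  have e1 : (fun t : ℝ => ee p (V + t • Z) x) =
      fun t : ℝ => Real.exp (-∑ i, |(V + t • Z).mulVec x i| ^ p) := rfl
  rw [e1]
  refine h2.congr_deriv ?_
  show Real.exp (-∑ i, |(V + t • Z).mulVec x i| ^ p) * -∑ i, g1 p ((V + t • Z).mulVec x i) * Z.mulVec x i = _
  unfold ee Ph hz
  ring

/-- Integrability of the dominating function. -/
theorem der_int {c : ℝ} (hc : 0 < c) (k : ℕ) (m : ℕ) :
    Integrable (fun x : Fin m → ℝ => (1 + ‖x‖) ^ k * Real.exp (-(c * ‖x‖))) := by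
  set N : ℕ := k + (m + 1) with hN
  have hj : Integrable (fun x : Fin m → ℝ => (1 + ‖x‖) ^ (-((m : ℝ) + 1))) := by
    apply integrable_one_add_norm
    rw [Module.finrank_fintype_fun_eq_card, Fintype.card_fin]
    linarith
  refine (hj.const_mul (N.factorial * Real.exp c / c ^ N)).mono'
    (by fun_prop) (Eventually.of_forall fun x => ?_)
  have h0 := norm_nonneg x
  rw [Real.norm_eq_abs, abs_of_nonneg (by positivity)]
  have h1 := in0_exp hc N h0
  have hq : (0 : ℝ) < (1 + ‖x‖) ^ (m + 1) := by positivity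
  have e1 : (1 + ‖x‖) ^ (-((m : ℝ) + 1)) = ((1 + ‖x‖) ^ (m + 1))⁻¹ := by
    rw [Real.rpow_neg (by positivity)]
    congr 1
    rw [← Real.rpow_natCast]
    push_cast
    rfl
  rw [e1, ← div_eq_mul_inv, le_div_iff₀ hq]
  refine le_trans (le_of_eq ?_) h1
  rw [hN, pow_add]
  ring

theorem der_g1 (hGD : ST_GD) (hp : 2 < p) (hp3 : p ≤ 3) (y A q : ℝ) (h : 1 + |y| ≤ A * q) :
    |g1 p y| ≤ 3 * (A * q) ^ 2 := by
  obtain ⟨-, -, -, -, -, -, hb1, -⟩ := hGD p hp hp3
  have h2 := pow_le_pow_left₀ (by positivity : 0 ≤ 1 + |y|) h 2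
  exact (hb1 _).trans (by linarith)

/-- Uniform bounds near `V`. -/
theorem der_bd (hGRW : ST_GRW) (hGD : ST_GD) (hp : 2 < p) (hp3 : p ≤ 3) (hV : Function.Injective V.mulVec) :
    ∃ ε c D : ℝ, 0 < ε ∧ 0 < c ∧ 0 ≤ D ∧ ∀ t : ℝ, |t| < ε →
      Function.Injective (V + t • Z).mulVec ∧ ∀ x : Fin m → ℝ,
      ee p (V + t • Z) x ≤ Real.exp 1 * Real.exp (-(c * ‖x‖)) ∧
      |hz p (V + t • Z) Z x| ≤ D * (1 + ‖x‖) ^ 3 ∧
      |∑ i, g2 p ((V + t • Z).mulVec x i) * (Z.mulVec x i) ^ 2| ≤ D * (1 + ‖x‖) ^ 3 := by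
  obtain ⟨r, c, hr, hc, hG⟩ := hGRW n m V hV
  obtain ⟨A, hA1, hA⟩ := GB2.row_le V
  obtain ⟨A', hA1', hA'⟩ := GB2.row_le Z
  obtain ⟨-, -, -, -, hg0, -, hb1, hb2, -⟩ := hGD p hp hp3
  set B : ℝ := ∑ i, ∑ a, |Z i a| with hB
  have hB0 : 0 ≤ B := Finset.sum_nonneg fun _ _ => Finset.sum_nonneg fun _ _ => abs_nonneg _
  have hBi : ∀ i a, |Z i a| ≤ B := fun i a =>
    (Finset.single_le_sum (f := fun a => |Z i a|) (fun _ _ => abs_nonneg _) (Finset.mem_univ a)).trans
      (Finset.single_le_sum (f := fun i => ∑ a, |Z i a|)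
        (fun _ _ => Finset.sum_nonneg fun _ _ => abs_nonneg _) (Finset.mem_univ i))
  have hAA : 0 < A + A' := by linarith
  refine ⟨min 1 (r / (B + 1)), c, 6 * n * (A + A') ^ 2 * A' ^ 2, lt_min one_pos (by positivity), hc,
    by positivity, fun t ht => ?_⟩
  have ht1 : |t| < 1 := lt_of_lt_of_le ht (min_le_left _ _)
  have ht2 : |t| * (B + 1) < r := by
    rw [← lt_div_iff₀ (by positivity)]
    exact lt_of_lt_of_le ht (min_le_right _ _)
  have hW : ∀ i a, |(V + t • Z) i a - V i a| < r := by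
    intro i a
    rw [Matrix.add_apply, Matrix.smul_apply, smul_eq_mul, add_sub_cancel_left, abs_mul]
    have h1 := mul_le_mul_of_nonneg_left (hBi i a) (abs_nonneg t)
    have h2 := abs_nonneg t
    nlinarith
  have hrow : ∀ (x : Fin m → ℝ) i, 1 + |(V + t • Z).mulVec x i| ≤ (A + A') * (1 + ‖x‖) := by
    intro x i
    rw [der_row]
    have h1 := abs_add_le (V.mulVec x i) (t * Z.mulVec x i)
    rw [abs_mul] at h1
    have h2 : |t| * |Z.mulVec x i| ≤ 1 * |Z.mulVec x i| := mul_le_mul_of_nonneg_right ht1.le (abs_nonneg _)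
    have h3 := hA x i
    have h4 := hA' x i
    linarith
  refine ⟨?_, fun x => ⟨?_, ?_, ?_⟩⟩
  · have hG' := hG (V + t • Z) hW
    intro x y hxy
    have h1 := (hG' (x - y)).1
    rw [Matrix.mulVec_sub, hxy, sub_self, norm_zero] at h1
    have h2 : ‖x - y‖ ≤ 0 := by
      by_contra hcon
      rw [not_le] at hcon
      have := mul_pos hc hcon
      linarith
    exact sub_eq_zero.1 (norm_le_zero_iff.1 h2)
  · have h1 := (hG (V + t • Z) hW x).2 p (by linarith)
    unfold ee
    rw [← Real.exp_add]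
    apply Real.exp_le_exp.2
    have hy : 0 ≤ c * ‖x‖ := mul_nonneg hc.le (norm_nonneg x)
    have h2 : c * ‖x‖ - 1 ≤ (c * ‖x‖) ^ p := by
      rcases le_or_gt 1 (c * ‖x‖) with h3 | h3
      · have h4 : (c * ‖x‖) ^ (1 : ℝ) ≤ (c * ‖x‖) ^ p :=
          Real.rpow_le_rpow_of_exponent_le h3 (by linarith)
        rw [Real.rpow_one] at h4
        linarith
      · have h4 : 0 ≤ (c * ‖x‖) ^ p := Real.rpow_nonneg hy p
        linarith
    linarith
  · have h0 := norm_nonneg x
    unfold hz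
    refine (Finset.abs_sum_le_sum_abs _ _).trans
      ((Finset.sum_le_card_nsmul _ _ (6 * (A + A') ^ 2 * A' ^ 2 * (1 + ‖x‖) ^ 3) fun i _ => ?_).trans
        (le_of_eq ?_))
    · rw [abs_mul]
      have h1 := der_g1 hGD hp hp3 _ _ _ (hrow x i)
      have h2 : |Z.mulVec x i| ≤ A' * (1 + ‖x‖) := by
        have := hA' x i
        linarith
      have h3 := mul_le_mul h1 h2 (abs_nonneg _) (by positivity)
      refine h3.trans ?_
      have h4 : A' ≤ A' ^ 2 := by nlinarith
      have h5 : 3 * ((A + A') * (1 + ‖x‖)) ^ 2 * (A' * (1 + ‖x‖)) =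
          (3 * (A + A') ^ 2 * (1 + ‖x‖) ^ 3) * A' := by ring
      rw [h5]
      have h6 : (3 * (A + A') ^ 2 * (1 + ‖x‖) ^ 3) * A' ≤ (3 * (A + A') ^ 2 * (1 + ‖x‖) ^ 3) * A' ^ 2 :=
        mul_le_mul_of_nonneg_left h4 (by positivity)
      have h7 : 0 ≤ (3 * (A + A') ^ 2 * (1 + ‖x‖) ^ 3) * A' ^ 2 := by positivity
      linarith
    · rw [nsmul_eq_mul, Finset.card_univ, Fintype.card_fin]
      ring
  · have h0 := norm_nonneg x
    refine (Finset.abs_sum_le_sum_abs _ _).trans
      ((Finset.sum_le_card_nsmul _ _ (6 * (A + A') ^ 2 * A' ^ 2 * (1 + ‖x‖) ^ 3) fun i _ => ?_).trans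
        (le_of_eq ?_))
    · rw [abs_mul, abs_of_nonneg (hg0 _), abs_of_nonneg (sq_nonneg _)]
      have h1 : g2 p ((V + t • Z).mulVec x i) ≤ 6 * ((A + A') * (1 + ‖x‖)) :=
        (hb2 _).trans (mul_le_mul_of_nonneg_left (hrow x i) (by norm_num))
      have h2 : (Z.mulVec x i) ^ 2 ≤ (A' * (1 + ‖x‖)) ^ 2 := by
        rw [← sq_abs]
        refine pow_le_pow_left₀ (abs_nonneg _) ?_ 2
        have := hA' x i
        linarith
      have h3 := mul_le_mul h1 h2 (sq_nonneg _) (by positivity)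
      refine h3.trans ?_
      have h4 : (A + A') ≤ (A + A') ^ 2 := by nlinarith
      have h5 : 6 * ((A + A') * (1 + ‖x‖)) * (A' * (1 + ‖x‖)) ^ 2 =
          (6 * A' ^ 2 * (1 + ‖x‖) ^ 3) * (A + A') := by ring
      rw [h5]
      have h6 := mul_le_mul_of_nonneg_left h4 (by positivity : 0 ≤ 6 * A' ^ 2 * (1 + ‖x‖) ^ 3)
      linarith
    · rw [nsmul_eq_mul, Finset.card_univ, Fintype.card_fin]
      ring

theorem der_chz (hGD : ST_GD) (hp : 2 < p) (hp3 : p ≤ 3) (t : ℝ) :
    Continuous (fun x : Fin m → ℝ => hz p (V + t • Z) Z x) := by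
  obtain ⟨-, -, hc1, -⟩ := hGD p hp hp3
  exact continuous_finsetSum _ fun i _ => (hc1.comp (GB2.cont_row _ i)).mul (GB2.cont_row Z i)

end der

theorem st_DER (hGRW : ST_GRW) (hGD : ST_GD) : ST_DER := by
  intro n m p V Z hp hp3 hV
  obtain ⟨-, -, hc1, hc2, hg0, -, hb1, hb2, -⟩ := hGD p hp hp3
  obtain ⟨ε, c, D, hε, hc, hD, hb⟩ := der_bd V Z hGRW hGD hp hp3 hV
  have hs : Metric.ball (0 : ℝ) ε ∈ 𝓝 (0 : ℝ) := Metric.ball_mem_nhds 0 hε
  have hmem : ∀ t ∈ Metric.ball (0 : ℝ) ε, |t| < ε := by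
    intro t ht
    rw [Metric.mem_ball, dist_zero_right, Real.norm_eq_abs] at ht
    exact ht
  have hce : ∀ t : ℝ, Continuous (ee p (V + t • Z)) := fun t => in0_cont (by linarith) _
  have h00 : V + (0 : ℝ) • Z = V := by rw [zero_smul, add_zero]
  have hc2' : ∀ t : ℝ, Continuous fun x : Fin m → ℝ =>
      ∑ i, g2 p ((V + t • Z).mulVec x i) * (Z.mulVec x i) ^ 2 := fun t =>
    continuous_finsetSum _ fun i _ => (hc2.comp (GB2.cont_row _ i)).mul ((GB2.cont_row Z i).pow 2)
  constructor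
  · have h1 := (hasDerivAt_integral_of_dominated_loc_of_deriv_le (μ := (volume : Measure (Fin m → ℝ)))
      (F := fun (t : ℝ) x => ee p (V + t • Z) x) (x₀ := (0 : ℝ)) (s := Metric.ball 0 ε)
      (F' := fun (t : ℝ) x => -(hz p (V + t • Z) Z x) * ee p (V + t • Z) x)
      (bound := fun x => D * Real.exp 1 * ((1 + ‖x‖) ^ 3 * Real.exp (-(c * ‖x‖)))) hs
      (Eventually.of_forall fun t => (hce t).aestronglyMeasurable)
      (by
        have h2 := in0_int hGRW (by linarith : (1 : ℝ) ≤ p) V hV (fun _ => 1) 1 0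
          aestronglyMeasurable_const (fun x => by simp)
        refine h2.congr (Eventually.of_forall fun x => ?_)
        show 1 * ee p V x = ee p (V + (0 : ℝ) • Z) x
        rw [one_mul, h00])
      ((der_chz V Z hGD hp hp3 0).neg.mul (hce 0)).aestronglyMeasurable
      (Eventually.of_forall fun x t ht => by
        obtain ⟨-, hbx⟩ := hb t (hmem t ht)
        obtain ⟨b1, b2, -⟩ := hbx x
        have he : 0 < ee p (V + t • Z) x := Real.exp_pos _
        have h0 := norm_nonneg x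
        rw [Real.norm_eq_abs, abs_mul, abs_neg, abs_of_pos he]
        calc |hz p (V + t • Z) Z x| * ee p (V + t • Z) x ≤
            (D * (1 + ‖x‖) ^ 3) * (Real.exp 1 * Real.exp (-(c * ‖x‖))) :=
              mul_le_mul b2 b1 he.le (by positivity)
          _ = _ := by ring)
      ((der_int hc 3 m).const_mul _)
      (Eventually.of_forall fun x t _ => der_ee V Z hGD hp hp3 t x)).2
    have h2 : ∫ x, (fun (t : ℝ) x => -(hz p (V + t • Z) Z x) * ee p (V + t • Z) x) 0 x = M1 p V Z := by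
      unfold M1 IE
      rw [← integral_neg]
      congr 1
      funext x
      beta_reduce
      rw [h00]
      ring
    rw [h2] at h1
    exact h1
  · have h1 := (hasDerivAt_integral_of_dominated_loc_of_deriv_le (μ := (volume : Measure (Fin m → ℝ)))
      (F := fun (t : ℝ) x => -(hz p (V + t • Z) Z x * ee p (V + t • Z) x)) (x₀ := (0 : ℝ)) (s := Metric.ball 0 ε)
      (F' := fun (t : ℝ) x => -((∑ i, g2 p ((V + t • Z).mulVec x i) * (Z.mulVec x i) ^ 2) * ee p (V + t • Z) x +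
        hz p (V + t • Z) Z x * (-(hz p (V + t • Z) Z x) * ee p (V + t • Z) x)))
      (bound := fun x => D * Real.exp 1 * ((1 + ‖x‖) ^ 3 * Real.exp (-(c * ‖x‖))) +
        D * D * Real.exp 1 * ((1 + ‖x‖) ^ 6 * Real.exp (-(c * ‖x‖)))) hs
      (Eventually.of_forall fun t => ((der_chz V Z hGD hp hp3 t).mul (hce t)).neg.aestronglyMeasurable)
      (by
        have h2 := in0_int hGRW (by linarith : (1 : ℝ) ≤ p) V hV (fun x => hz p V Z x) D 3
          (by
            have := der_chz V Z hGD hp hp3 0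
            rw [h00] at this
            exact this.aestronglyMeasurable) (fun x => by
            obtain ⟨-, hbx⟩ := hb 0 (by rw [abs_zero]; exact hε)
            have := (hbx x).2.1
            rw [h00] at this
            exact this)
        refine h2.neg.congr (Eventually.of_forall fun x => ?_)
        show -(hz p V Z x * ee p V x) = -(hz p (V + (0 : ℝ) • Z) Z x * ee p (V + (0 : ℝ) • Z) x)
        rw [h00])
      (((hc2' 0).mul (hce 0)).add ((der_chz V Z hGD hp hp3 0).mul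
        ((der_chz V Z hGD hp hp3 0).neg.mul (hce 0)))).neg.aestronglyMeasurable
      (Eventually.of_forall fun x t ht => by
        obtain ⟨-, hbx⟩ := hb t (hmem t ht)
        obtain ⟨b1, b2, b3⟩ := hbx x
        have he : 0 < ee p (V + t • Z) x := Real.exp_pos _
        have h0 := norm_nonneg x
        rw [Real.norm_eq_abs, abs_neg]
        refine (abs_add_le _ _).trans (add_le_add ?_ ?_)
        · rw [abs_mul, abs_of_pos he]
          calc |∑ i, g2 p ((V + t • Z).mulVec x i) * (Z.mulVec x i) ^ 2| * ee p (V + t • Z) x ≤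
              (D * (1 + ‖x‖) ^ 3) * (Real.exp 1 * Real.exp (-(c * ‖x‖))) :=
                mul_le_mul b3 b1 he.le (by positivity)
            _ = _ := by ring
        · rw [abs_mul, abs_mul, abs_neg, abs_of_pos he]
          calc |hz p (V + t • Z) Z x| * (|hz p (V + t • Z) Z x| * ee p (V + t • Z) x) ≤
              (D * (1 + ‖x‖) ^ 3) * ((D * (1 + ‖x‖) ^ 3) * (Real.exp 1 * Real.exp (-(c * ‖x‖)))) :=
                mul_le_mul b2 (mul_le_mul b2 b1 he.le (by positivity))
                  (mul_nonneg (abs_nonneg _) he.le) (by positivity)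
            _ = _ := by ring)
      (((der_int hc 3 m).const_mul _).add ((der_int hc 6 m).const_mul _))
      (Eventually.of_forall fun x t _ =>
        ((der_hz V Z hGD hp hp3 t x).mul (der_ee V Z hGD hp hp3 t x)).neg)).2
    have h2 : ∫ x, (fun (t : ℝ) x => -((∑ i, g2 p ((V + t • Z).mulVec x i) * (Z.mulVec x i) ^ 2) *
        ee p (V + t • Z) x + hz p (V + t • Z) Z x * (-(hz p (V + t • Z) Z x) * ee p (V + t • Z) x))) (0 : ℝ) x =
        M2 p V Z := by
      unfold M2 IE
      congr 1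
      funext x
      beta_reduce
      rw [h00]
      ring
    rw [h2] at h1
    refine h1.congr_of_eventuallyEq (Eventually.of_forall fun t => ?_)
    show -(∫ x, hz p (V + t • Z) Z x * ee p (V + t • Z) x) =
      ∫ x, -(hz p (V + t • Z) Z x * ee p (V + t • Z) x)
    rw [integral_neg]

end Pool.Agent.Helper44.GJ
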