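import Pool.Agent.Helper51.GJ.SE1

/-! Module GB3: the linear part of `gz`. -/

set_option autoImplicit false

open Finset MeasureTheory Filter Topology Matrix
open scoped ENNReal ContDiff

namespace Pool.Agent.Helper44.GJ

open Pool.Agent.Helper44.GF Pool.Agent.Helper44.GN Pool.Agent.Helper44.GH

/-- Growth of `∑ g1 (t_i) a_i`. -/
theorem gb3_gr (hGD : ST_GD) {n m : ℕ} {p : ℝ} (hp : 2 < p) (hp3 : p ≤ 3) (V : Matrix (Fin n) (Fin m) ℝ)
    (a : Fin n → ℝ) : ∃ D : ℝ, 0 ≤ D ∧ ∀ x : Fin m → ℝ,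
      |∑ i, g1 p (V.mulVec x i) * a i| ≤ D * (1 + ‖x‖) ^ 2 := by
  obtain ⟨-, -, -, -, -, -, hb1, -⟩ := hGD p hp hp3
  obtain ⟨A, hA1, hA⟩ := GB2.row_le V
  refine ⟨∑ i, 3 * A ^ 2 * |a i|, Finset.sum_nonneg fun i _ => by positivity, fun x => ?_⟩
  refine (Finset.abs_sum_le_sum_abs _ _).trans ?_
  rw [Finset.sum_mul]
  refine Finset.sum_le_sum fun i _ => ?_
  rw [abs_mul]
  have h0 := norm_nonneg x
  have h2 := pow_le_pow_left₀ (by positivity : 0 ≤ 1 + |V.mulVec x i|) (hA x i) 2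
  rw [mul_pow] at h2
  have h3 : |g1 p (V.mulVec x i)| ≤ 3 * A ^ 2 * (1 + ‖x‖) ^ 2 := (hb1 _).trans (by linarith)
  calc |g1 p (V.mulVec x i)| * |a i| ≤ 3 * A ^ 2 * (1 + ‖x‖) ^ 2 * |a i| :=
        mul_le_mul_of_nonneg_right h3 (abs_nonneg _)
    _ = _ := by ring

theorem gb3_gz (hGD : ST_GD) {n m : ℕ} {p : ℝ} (hp : 2 < p) (hp3 : p ≤ 3) (V Z : Matrix (Fin n) (Fin m) ℝ)
    (b : Fin m) : Continuous (fun x => gz p V Z x b) ∧ ∃ D : ℝ, 0 ≤ D ∧ ∀ x : Fin m → ℝ,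
      |gz p V Z x b| ≤ D * (1 + ‖x‖) ^ 2 := by
  obtain ⟨-, -, hc1, -⟩ := hGD p hp hp3
  exact ⟨continuous_finsetSum _ fun i _ => (hc1.comp (GB2.cont_row V i)).mul continuous_const,
    gb3_gr hGD hp hp3 V (fun i => Z i b)⟩

theorem gb3_dot {m : ℕ} (v x : Fin m → ℝ) : |v ⬝ᵥ x| ≤ (∑ a, |v a|) * (1 + ‖x‖) := by
  have h1 : |v ⬝ᵥ x| ≤ (∑ a, |v a|) * ‖x‖ := by
    unfold dotProduct
    refine (Finset.abs_sum_le_sum_abs _ _).trans ?_
    rw [Finset.sum_mul]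
    apply Finset.sum_le_sum
    intro a _
    rw [abs_mul]
    exact mul_le_mul_of_nonneg_left (norm_le_pi_norm x a) (abs_nonneg _)
  have h2 : 0 ≤ ∑ a, |v a| := Finset.sum_nonneg fun _ _ => abs_nonneg _
  linarith

theorem gb3_cdot {m : ℕ} (v : Fin m → ℝ) : Continuous fun x : Fin m → ℝ => v ⬝ᵥ x := by
  unfold dotProduct
  fun_prop

/-- One column. -/
theorem gb3_col (hGB1 : ST_GB1) (hSE1 : ST_SE1) (hIN0 : ST_IN0) (hGD : ST_GD) {n m : ℕ} {p : ℝ}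
    (V Z : Matrix (Fin n) (Fin m) ℝ) (c : Fin n → ℝ) (hp : 2 < p) (hp' : p ≤ 11 / 5)
    (hV : Function.Injective V.mulVec) (hR : RW p V c) (hT : TT V V c = 1) (hZ : TT V Z c = 0)
    (h0 : ∀ i, V i = 0 → Z i = 0) (b : Fin m) :
    ∑ a, IE p V (fun x => x a * gz p V Z x b) ^ 2 ≤
      832 / 10000 * (∑ i, c i * Z i b ^ 2) * Mp p V ^ 2 := by
  have hp3 : p ≤ 3 := by linarith
  obtain ⟨hM, -, hint⟩ := hIN0 n m p V (by linarith) hV
  obtain ⟨hgc, D, hD0, hD⟩ := gb3_gz hGD hp hp3 V Z b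
  set g : (Fin m → ℝ) → ℝ := fun x => gz p V Z x b with hg
  set ν : Fin m → ℝ := fun a => IE p V (fun x => x a * g x) with hν
  have hi1 : ∀ v : Fin m → ℝ, Integrable (fun x => (v ⬝ᵥ x) * g x * ee p V x) := by
    intro v
    refine hint (fun x => (v ⬝ᵥ x) * g x) ((∑ a, |v a|) * D) 3 ((gb3_cdot v).mul hgc).aestronglyMeasurable
      (fun x => ?_)
    have h0 := norm_nonneg x
    rw [abs_mul]
    calc |v ⬝ᵥ x| * |g x| ≤ ((∑ a, |v a|) * (1 + ‖x‖)) * (D * (1 + ‖x‖) ^ 2) :=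
          mul_le_mul (gb3_dot v x) (hD x) (abs_nonneg _) (by
            have : 0 ≤ ∑ a, |v a| := Finset.sum_nonneg fun _ _ => abs_nonneg _
            positivity)
      _ = _ := by ring
  have i1 : Integrable (fun x => (ν ⬝ᵥ x) ^ 2 * ee p V x) := by
    refine hint (fun x => (ν ⬝ᵥ x) ^ 2) ((∑ a, |ν a|) ^ 2) 2 ((gb3_cdot ν).pow 2).aestronglyMeasurable
      (fun x => ?_)
    rw [abs_of_nonneg (sq_nonneg _), ← sq_abs, ← mul_pow]
    exact pow_le_pow_left₀ (abs_nonneg _) (gb3_dot ν x) 2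
  have i2 : Integrable (fun x => g x ^ 2 * ee p V x) := by
    refine hint (fun x => g x ^ 2) (D ^ 2) 4 (hgc.pow 2).aestronglyMeasurable (fun x => ?_)
    rw [abs_of_nonneg (sq_nonneg _), ← sq_abs]
    have h1 := pow_le_pow_left₀ (abs_nonneg _) (hD x) 2
    calc |g x| ^ 2 ≤ (D * (1 + ‖x‖) ^ 2) ^ 2 := h1
      _ = _ := by ring
  -- the square of `ν`
  have e1 : ν ⬝ᵥ ν = ∫ x, (ν ⬝ᵥ x) * g x * ee p V x := by
    have h1 : ∀ a ∈ (Finset.univ : Finset (Fin m)),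
        Integrable (fun x : Fin m → ℝ => ν a * (x a * g x * ee p V x)) := by
      intro a _
      have h2 := hi1 (Pi.single a 1)
      refine (h2.const_mul (ν a)).congr (Eventually.of_forall fun x => ?_)
      show ν a * ((Pi.single a 1 ⬝ᵥ x) * g x * ee p V x) = ν a * (x a * g x * ee p V x)
      rw [single_dotProduct, one_mul]
    have h2 : ∫ x, (ν ⬝ᵥ x) * g x * ee p V x = ∑ a, ∫ x, ν a * (x a * g x * ee p V x) := by
      rw [← integral_finsetSum _ h1]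
      congr 1
      funext x
      unfold dotProduct
      rw [Finset.sum_mul, Finset.sum_mul]
      exact Finset.sum_congr rfl fun a _ => by ring
    rw [h2]
    unfold dotProduct
    refine Finset.sum_congr rfl fun a _ => ?_
    rw [integral_const_mul]
    rfl
  have s1 := (hSE1 n m p V c hp hp' hV hR hT ν).1
  have s2 := hGB1 n m p V Z c hp hp' hV hR hT hZ h0 (Pi.single b 1)
  have e2 : IE p V (fun x => (Pi.single b 1 ⬝ᵥ gz p V Z x) ^ 2) = ∫ x, g x ^ 2 * ee p V x := by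
    unfold IE
    congr 1
    funext x
    beta_reduce
    rw [single_dotProduct, one_mul]
  have e3 : ∑ i, c i * (Z i ⬝ᵥ Pi.single b 1) ^ 2 = ∑ i, c i * Z i b ^ 2 := by
    refine Finset.sum_congr rfl fun i _ => ?_
    rw [dotProduct_single, mul_one]
  rw [e2, e3] at s2
  set lam : ℝ := 26 / 25 * Mp p V with hlam
  have hl : 0 < lam := by positivity
  have h1 : ∫ x, (ν ⬝ᵥ x) * g x * ee p V x ≤
      ∫ x, (1 / (2 * lam) * ((ν ⬝ᵥ x) ^ 2 * ee p V x) + lam / 2 * (g x ^ 2 * ee p V x)) := by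
    refine integral_mono (hi1 ν) ((i1.const_mul _).add (i2.const_mul _)) fun x => ?_
    have he : 0 < ee p V x := Real.exp_pos _
    show (ν ⬝ᵥ x) * g x * ee p V x ≤ 1 / (2 * lam) * ((ν ⬝ᵥ x) ^ 2 * ee p V x) + lam / 2 * (g x ^ 2 * ee p V x)
    have h2 : (ν ⬝ᵥ x) * g x ≤ 1 / (2 * lam) * (ν ⬝ᵥ x) ^ 2 + lam / 2 * g x ^ 2 := by
      have h3 : 0 ≤ 1 / (2 * lam) * ((ν ⬝ᵥ x) - lam * g x) ^ 2 := by positivity
      have h4 : 1 / (2 * lam) * ((ν ⬝ᵥ x) - lam * g x) ^ 2 =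
          1 / (2 * lam) * (ν ⬝ᵥ x) ^ 2 + lam / 2 * g x ^ 2 - (ν ⬝ᵥ x) * g x := by
        field_simp
        ring
      linarith
    have h3 := mul_le_mul_of_nonneg_right h2 he.le
    linarith
  rw [integral_add (i1.const_mul _) (i2.const_mul _), integral_const_mul, integral_const_mul, ← e1] at h1
  have h2 : 1 / (2 * lam) * ∫ x, (ν ⬝ᵥ x) ^ 2 * ee p V x ≤ 1 / 2 * (ν ⬝ᵥ ν) := by
    have h3 : ∫ x, (ν ⬝ᵥ x) ^ 2 * ee p V x ≤ (ν ⬝ᵥ ν) * lam := by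
      refine s1.trans (le_of_eq ?_)
      rw [hlam]
      ring
    have h4 := mul_le_mul_of_nonneg_left h3 (by positivity : 0 ≤ 1 / (2 * lam))
    refine h4.trans (le_of_eq ?_)
    field_simp
  have h3 : lam / 2 * ∫ x, g x ^ 2 * ee p V x ≤ lam / 2 * (2 / 25 * (∑ i, c i * Z i b ^ 2) * Mp p V) :=
    mul_le_mul_of_nonneg_left s2 (by positivity)
  have h4 : ∑ a, IE p V (fun x => x a * gz p V Z x b) ^ 2 = ν ⬝ᵥ ν := by
    unfold dotProduct
    refine Finset.sum_congr rfl fun a _ => ?_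
    rw [sq]
  rw [h4]
  have h5 : lam / 2 * (2 / 25 * (∑ i, c i * Z i b ^ 2) * Mp p V) =
      1 / 2 * (832 / 10000 * (∑ i, c i * Z i b ^ 2) * Mp p V ^ 2) := by
    rw [hlam]
    ring
  rw [h5] at h3
  linarith

theorem st_GB3 (hGB1 : ST_GB1) (hSE1 : ST_SE1) (hIN0 : ST_IN0) (hGD : ST_GD) : ST_GB3 := by
  intro n m p V Z c hp hp' hV hR hT hZ h0
  rw [Finset.sum_comm]
  refine (Finset.sum_le_sum fun b _ => gb3_col hGB1 hSE1 hIN0 hGD V Z c hp hp' hV hR hT hZ h0 b).trans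
    (le_of_eq ?_)
  rw [← Finset.sum_mul, ← Finset.mul_sum, Finset.sum_comm]
  congr 2
  refine Finset.sum_congr rfl fun i _ => ?_
  unfold dotProduct
  rw [Finset.mul_sum]
  exact Finset.sum_congr rfl fun b _ => by ring

end Pool.Agent.Helper44.GJ
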