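import Pool.Agent.Helper7.GJ.GB2

/-! Module IBP: integration by parts. -/

set_option autoImplicit false

open Finset MeasureTheory Filter Topology Matrix
open scoped ENNReal ContDiff

namespace Pool.Agent.Helper44.GJ

open Pool.Agent.Helper44.GF Pool.Agent.Helper44.GN Pool.Agent.Helper44.GH

open GB2 in
/-- The derivative of the density along a direction. -/
theorem ibp_ee (hGD : ST_GD) {n m : ℕ} {p : ℝ} (hp : 2 < p) (hp3 : p ≤ 3) (V : Matrix (Fin n) (Fin m) ℝ)
    (x h : Fin m → ℝ) : HasDerivAt (fun r : ℝ => ee p V (x + r • h))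
      (-(∑ i, g1 p (V.mulVec x i) * V.mulVec h i) * ee p V x) 0 := by
  obtain ⟨hd, -, -⟩ := hGD p hp hp3
  have h1 : ∀ i ∈ (Finset.univ : Finset (Fin n)), HasDerivAt (fun r : ℝ => |V.mulVec (x + r • h) i| ^ p)
      (g1 p (V.mulVec x i) * V.mulVec h i) 0 := by
    intro i _
    have h2 : (fun r : ℝ => |V.mulVec (x + r • h) i| ^ p) =
        (fun t : ℝ => |t| ^ p) ∘ fun r : ℝ => V.mulVec x i + r * V.mulVec h i := by
      funext r
      rw [mulVec_add_smul]
      rfl
    have h3 : HasDerivAt (fun r : ℝ => V.mulVec x i + r * V.mulVec h i) (V.mulVec h i) 0 := by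
      have h4 := ((hasDerivAt_id (0 : ℝ)).mul_const (V.mulVec h i)).const_add (V.mulVec x i)
      rw [one_mul] at h4
      exact h4
    have h5 : HasDerivAt (fun t : ℝ => |t| ^ p) (g1 p (V.mulVec x i))
        ((fun r : ℝ => V.mulVec x i + r * V.mulVec h i) 0) := by
      have h6 : (fun r : ℝ => V.mulVec x i + r * V.mulVec h i) 0 = V.mulVec x i := by
        show V.mulVec x i + 0 * V.mulVec h i = V.mulVec x i
        ring
      rw [h6]
      exact hd _
    rw [h2]
    exact h5.comp (0 : ℝ) h3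
  have h2 := (HasDerivAt.fun_sum h1).neg.exp
  have e1 : (fun r : ℝ => ee p V (x + r • h)) =
      fun r : ℝ => Real.exp (-∑ i, |V.mulVec (x + r • h) i| ^ p) := rfl
  rw [e1]
  refine h2.congr_deriv ?_
  show Real.exp (-∑ i, |V.mulVec (x + (0 : ℝ) • h) i| ^ p) * -∑ i, g1 p (V.mulVec x i) * V.mulVec h i = _
  rw [zero_smul, add_zero]
  unfold ee Ph
  ring

open GB2 in
/-- Growth of the derivative of the potential. -/
theorem ibp_gr (hGD : ST_GD) {n m : ℕ} {p : ℝ} (hp : 2 < p) (hp3 : p ≤ 3) (V : Matrix (Fin n) (Fin m) ℝ)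
    (h : Fin m → ℝ) : ∃ D : ℝ, 0 ≤ D ∧ ∀ x : Fin m → ℝ,
      |∑ i, g1 p (V.mulVec x i) * V.mulVec h i| ≤ D * (1 + ‖x‖) ^ 2 := by
  obtain ⟨-, -, -, -, -, -, hb1, -⟩ := hGD p hp hp3
  obtain ⟨A, hA1, hA⟩ := row_le V
  refine ⟨∑ i, 3 * A ^ 2 * |V.mulVec h i|, Finset.sum_nonneg fun i _ => by positivity, fun x => ?_⟩
  refine (Finset.abs_sum_le_sum_abs _ _).trans ?_
  rw [Finset.sum_mul]
  refine Finset.sum_le_sum fun i _ => ?_
  rw [abs_mul]
  have h0 := norm_nonneg x
  have h2 := pow_le_pow_left₀ (by positivity : 0 ≤ 1 + |V.mulVec x i|) (hA x i) 2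
  rw [mul_pow] at h2
  have h3 : |g1 p (V.mulVec x i)| ≤ 3 * A ^ 2 * (1 + ‖x‖) ^ 2 := (hb1 _).trans (by linarith)
  calc |g1 p (V.mulVec x i)| * |V.mulVec h i| ≤ 3 * A ^ 2 * (1 + ‖x‖) ^ 2 * |V.mulVec h i| :=
        mul_le_mul_of_nonneg_right h3 (abs_nonneg _)
    _ = _ := by ring

open GB2 in
theorem st_IBP (hGD : ST_GD) (hIN0 : ST_IN0) : ST_IBP := by
  intro n m p V hp hp3 hV h F F' C k hd hF hF' hb hb'
  obtain ⟨-, hec, hint⟩ := hIN0 n m p V (by linarith) hV
  obtain ⟨D, hD0, hD⟩ := ibp_gr hGD hp hp3 V h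
  obtain ⟨-, -, hc1, -⟩ := hGD p hp hp3
  set P : (Fin m → ℝ) → ℝ := fun x => ∑ i, g1 p (V.mulVec x i) * V.mulVec h i with hP
  have hPc : Continuous P := continuous_finsetSum _ fun i _ => (hc1.comp (cont_row V i)).mul continuous_const
  have hC0 : 0 ≤ C := by
    have := hb 0
    rw [norm_zero, add_zero, one_pow, mul_one] at this
    exact (abs_nonneg _).trans this
  have i1 : Integrable (fun x => F' x * ee p V x) := hint F' C k hF'.aestronglyMeasurable hb'
  have i2 : Integrable (fun x => F x * ee p V x) := hint F C k hF.aestronglyMeasurable hb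
  have i3 : Integrable (fun x => (F x * P x) * ee p V x) := by
    refine hint (fun x => F x * P x) (C * D) (k + 2) (hF.mul hPc).aestronglyMeasurable fun x => ?_
    rw [abs_mul]
    have h0 := norm_nonneg x
    calc |F x| * |P x| ≤ (C * (1 + ‖x‖) ^ k) * (D * (1 + ‖x‖) ^ 2) :=
          mul_le_mul (hb x) (hD x) (abs_nonneg _) (by positivity)
      _ = C * D * (1 + ‖x‖) ^ (k + 2) := by ring
  have key := integral_bilinear_hasLineDerivAt_right_eq_neg_left_of_integrable
    (μ := (volume : Measure (Fin m → ℝ))) (f := F) (f' := F') (g := ee p V)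
    (g' := fun x => -(P x) * ee p V x) (v := h) (B := ContinuousLinearMap.mul ℝ ℝ) i1 (by
      refine i3.neg.congr (Eventually.of_forall fun x => ?_)
      show -((F x * P x) * ee p V x) = F x * (-(P x) * ee p V x)
      ring) i2 (fun x _ => hd x) (fun x _ => ibp_ee hGD hp hp3 V x h)
  have e1 : ∫ x, (ContinuousLinearMap.mul ℝ ℝ) (F x) (-(P x) * ee p V x) = -∫ x, (F x * P x) * ee p V x := by
    rw [← integral_neg]
    congr 1
    funext x
    show F x * (-(P x) * ee p V x) = -((F x * P x) * ee p V x)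
    ring
  have e2 : ∫ x, (ContinuousLinearMap.mul ℝ ℝ) (F' x) (ee p V x) = ∫ x, F' x * ee p V x := rfl
  rw [e1, e2] at key
  show ∫ x, F' x * ee p V x = ∫ x, (F x * P x) * ee p V x
  linarith

end Pool.Agent.Helper44.GJ
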