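import Pool.Agent.Helper7.GJ.GB2

/-! Module IN0: integrability. -/

set_option autoImplicit false

open Finset MeasureTheory Filter Topology Matrix
open scoped ENNReal ContDiff

namespace Pool.Agent.Helper44.GJ

open Pool.Agent.Helper44.GF Pool.Agent.Helper44.GN Pool.Agent.Helper44.GH

/-- Polynomials times exponentials. -/
theorem in0_exp {c : ℝ} (hc : 0 < c) (N : ℕ) {t : ℝ} (ht : 0 ≤ t) :
    (1 + t) ^ N * Real.exp (-(c * t)) ≤ N.factorial * Real.exp c / c ^ N := by
  have h1 := Real.pow_div_factorial_le_exp (c * (1 + t)) (by positivity) N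
  have hf : (0 : ℝ) < N.factorial := by exact_mod_cast Nat.factorial_pos N
  rw [div_le_iff₀ hf, mul_pow] at h1
  rw [le_div_iff₀ (by positivity)]
  have h2 := mul_le_mul_of_nonneg_right h1 (Real.exp_pos (-(c * t))).le
  have h3 : Real.exp (c * (1 + t)) * (N.factorial : ℝ) * Real.exp (-(c * t)) = N.factorial * Real.exp c := by
    rw [show c * (1 + t) = c + c * t by ring, Real.exp_add, Real.exp_neg]
    have := (Real.exp_pos (c * t)).ne'
    field_simp
  rw [h3] at h2
  refine le_trans (le_of_eq ?_) h2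
  ring

/-- The decay of the density. -/
theorem in0_dec (hGRW : ST_GRW) {n m : ℕ} {p : ℝ} (hp : 1 ≤ p) (V : Matrix (Fin n) (Fin m) ℝ)
    (hV : Function.Injective V.mulVec) : ∃ c : ℝ, 0 < c ∧ ∀ x : Fin m → ℝ,
      ee p V x ≤ Real.exp 1 * Real.exp (-(c * ‖x‖)) := by
  obtain ⟨r, c, hr, hc, h⟩ := hGRW n m V hV
  refine ⟨c, hc, fun x => ?_⟩
  have h1 := (h V (fun i a => by rw [sub_self, abs_zero]; exact hr) x).2 p (by linarith)
  unfold ee
  rw [← Real.exp_add]
  apply Real.exp_le_exp.2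
  have hy : 0 ≤ c * ‖x‖ := mul_nonneg hc.le (norm_nonneg x)
  have h2 : c * ‖x‖ - 1 ≤ (c * ‖x‖) ^ p := by
    rcases le_or_gt 1 (c * ‖x‖) with h3 | h3
    · have h4 : (c * ‖x‖) ^ (1 : ℝ) ≤ (c * ‖x‖) ^ p := Real.rpow_le_rpow_of_exponent_le h3 hp
      rw [Real.rpow_one] at h4
      linarith
    · have h4 : 0 ≤ (c * ‖x‖) ^ p := Real.rpow_nonneg hy p
      linarith
  linarith

theorem in0_cont {n m : ℕ} {p : ℝ} (hp : 1 ≤ p) (V : Matrix (Fin n) (Fin m) ℝ) : Continuous (ee p V) := by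
  unfold ee Ph
  refine Real.continuous_exp.comp (Continuous.neg (continuous_finsetSum _ fun i _ => ?_))
  exact (continuous_abs.comp (GB2.cont_row V i)).rpow_const fun x => Or.inr (by linarith)

theorem in0_int (hGRW : ST_GRW) {n m : ℕ} {p : ℝ} (hp : 1 ≤ p) (V : Matrix (Fin n) (Fin m) ℝ)
    (hV : Function.Injective V.mulVec) (F : (Fin m → ℝ) → ℝ) (C : ℝ) (k : ℕ)
    (hF : AEStronglyMeasurable F volume) (hb : ∀ x, |F x| ≤ C * (1 + ‖x‖) ^ k) :
    Integrable (fun x => F x * ee p V x) := by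
  obtain ⟨c, hc, hd⟩ := in0_dec hGRW hp V hV
  have hC : 0 ≤ C := by
    have := hb 0
    rw [norm_zero, add_zero, one_pow, mul_one] at this
    exact (abs_nonneg _).trans this
  set N : ℕ := k + (m + 1) with hN
  have hj : Integrable (fun x : Fin m → ℝ => (1 + ‖x‖) ^ (-((m : ℝ) + 1))) := by
    apply integrable_one_add_norm
    rw [Module.finrank_fintype_fun_eq_card, Fintype.card_fin]
    linarith
  refine (hj.const_mul (C * Real.exp 1 * (N.factorial * Real.exp c / c ^ N))).mono'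
    (hF.mul (in0_cont hp V).aestronglyMeasurable) (Eventually.of_forall fun x => ?_)
  have h0 := norm_nonneg x
  have he : 0 < ee p V x := Real.exp_pos _
  rw [Real.norm_eq_abs, abs_mul, abs_of_pos he]
  have h1 := in0_exp hc N h0
  have hq : (0 : ℝ) < (1 + ‖x‖) ^ (m + 1) := by positivity
  have h2 : (1 + ‖x‖) ^ k * Real.exp (-(c * ‖x‖)) ≤
      (N.factorial * Real.exp c / c ^ N) * (1 + ‖x‖) ^ (-((m : ℝ) + 1)) := by
    have e1 : (1 + ‖x‖) ^ (-((m : ℝ) + 1)) = ((1 + ‖x‖) ^ (m + 1))⁻¹ := by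
      rw [Real.rpow_neg (by positivity)]
      congr 1
      rw [← Real.rpow_natCast]
      push_cast
      rfl
    rw [e1, ← div_eq_mul_inv, le_div_iff₀ hq]
    refine le_trans (le_of_eq ?_) h1
    rw [hN, pow_add]
    ring
  calc |F x| * ee p V x ≤ (C * (1 + ‖x‖) ^ k) * (Real.exp 1 * Real.exp (-(c * ‖x‖))) :=
        mul_le_mul (hb x) (hd x) he.le (by positivity)
    _ = C * Real.exp 1 * ((1 + ‖x‖) ^ k * Real.exp (-(c * ‖x‖))) := by ring
    _ ≤ C * Real.exp 1 * ((N.factorial * Real.exp c / c ^ N) * (1 + ‖x‖) ^ (-((m : ℝ) + 1))) :=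
        mul_le_mul_of_nonneg_left h2 (by positivity)
    _ = _ := by ring

theorem st_IN0 (hGRW : ST_GRW) : ST_IN0 := by
  intro n m p V hp hV
  refine ⟨?_, in0_cont hp V, fun F C k hF hb => in0_int hGRW hp V hV F C k hF hb⟩
  have h1 : Integrable (ee p V) := by
    have h2 := in0_int hGRW hp V hV (fun _ => 1) 1 0 aestronglyMeasurable_const (fun x => by simp)
    refine h2.congr (Eventually.of_forall fun x => ?_)
    show 1 * ee p V x = ee p V x
    rw [one_mul]
  unfold Mp
  have h0 : 0 ≤ ee p V := fun x => (Real.exp_pos _).le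
  rw [integral_pos_iff_support_of_nonneg h0 h1]
  have h2 : Function.support (ee p V) = Set.univ := by
    rw [Set.eq_univ_iff_forall]
    intro x
    exact (Real.exp_pos _).ne'
  rw [h2]
  exact isOpen_univ.measure_pos volume Set.univ_nonempty

end Pool.Agent.Helper44.GJ
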