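import Pool.Agent.Helper44.GJ.Stmts

/-! Module KE: the volume decreasing projection. -/

open Finset MeasureTheory Filter Topology Matrix
open scoped ENNReal ContDiff

namespace Pool.Agent.Helper44.GJ

open Pool.Agent.Helper44.GF Pool.Agent.Helper44.GN Pool.Agent.Helper44.GH

theorem ke_inj {n m : ℕ} (B : Matrix (Fin m) (Fin n) ℝ) (W : Matrix (Fin n) (Fin m) ℝ)
    (h : IsUnit (B * W).det) : Function.Injective W.mulVec := by
  intro x y hxy
  have h1 : (B * W) *ᵥ x = (B * W) *ᵥ y := by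
    rw [← Matrix.mulVec_mulVec, ← Matrix.mulVec_mulVec]
    congr 1
  have h2 := congrArg (fun v => (B * W)⁻¹ *ᵥ v) h1
  simp only [Matrix.mulVec_mulVec] at h2
  rwa [Matrix.nonsing_inv_mul _ h, Matrix.one_mulVec, Matrix.one_mulVec] at h2

theorem ke_inj1 {n m : ℕ} (B : Matrix (Fin m) (Fin n) ℝ) (W : Matrix (Fin n) (Fin m) ℝ)
    (h : B * W = 1) : Function.Injective W.mulVec := by
  apply ke_inj B W
  rw [h, Matrix.det_one]
  exact isUnit_one

theorem st_KE (hLI : ST_LI) (hMPL : Pool.Agent.Helper44.GH.ST_MPL) (hGP : ST_GP) (hGM : ST_GM) (hCO : ST_CO)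
    (hCR : ST_CR) (hBPP : ST_BPP) (hNRM : ST_NRM) : ST_KE := by
  intro n m p V hp hp' hV
  have hp3 : p ≤ 3 := by linarith
  obtain ⟨hB1, -, hB2⟩ := hBPP n m p V hp hp3 hV
  refine ⟨Bp p V, hB1, ?_⟩
  set B := Bp p V with hB
  obtain ⟨hc, hpos, hk⟩ := hCO n m p V B hp hp3 hB1
  have hWe : ∀ w : KB B, B * (V + Matrix.of (w : Fin n → Fin m → ℝ)) = 1 := by
    intro w
    have : B * Matrix.of (w : Fin n → Fin m → ℝ) = 0 := w.2
    rw [Matrix.mul_add, hB1, this, add_zero]
  have hslm : ∀ w : KB B, (∀ e : KB B, M1 p (V + Matrix.of (w : Fin n → Fin m → ℝ))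
      (Matrix.of (e : Fin n → Fin m → ℝ)) = 0) → SLM (GB B V p) w := by
    intro w hw
    refine hGM n m p V B hp hp3 hB1 w hw ?_
    intro e he hrow
    have hBp : Bp p (V + Matrix.of (w : Fin n → Fin m → ℝ)) = B := by
      refine hCR n m p _ B hp hp3 (hWe w) ?_
      intro Z hZ
      exact hw ⟨Z, hZ⟩
    obtain ⟨_, _, h2⟩ := hBPP n m p _ hp hp3 (ke_inj1 B _ (hWe w))
    refine hLI n m p _ _ hp hp' (ke_inj1 B _ (hWe w)) hrow ?_ ?_
    · intro a b
      rw [(h2 (Matrix.of (e : Fin n → Fin m → ℝ))).1 a b, hBp]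
      have : B * Matrix.of (e : Fin n → Fin m → ℝ) = 0 := e.2
      rw [this, Matrix.zero_apply, zero_mul]
    · intro h0
      apply he
      apply Subtype.ext
      exact h0
  have hdich : ∀ w : KB B, SLM (GB B V p) w ∨ SLP (GB B V p) w := by
    intro w
    by_cases h : ∃ e : KB B, M1 p (V + Matrix.of (w : Fin n → Fin m → ℝ))
      (Matrix.of (e : Fin n → Fin m → ℝ)) ≠ 0
    · exact Or.inr (hGP n m p V B hp hp3 hB1 w h)
    · push Not at h
      exact Or.inl (hslm w h)
  have hV0 : V + Matrix.of ((0 : KB B) : Fin n → Fin m → ℝ) = V := by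
    have : Matrix.of ((0 : KB B) : Fin n → Fin m → ℝ) = (0 : Matrix (Fin n) (Fin m) ℝ) := rfl
    rw [this, add_zero]
  have h0 : SLM (GB B V p) 0 := by
    apply hslm
    intro e
    rw [hV0, (hB2 (Matrix.of (e : Fin n → Fin m → ℝ))).2]
    have : B * Matrix.of (e : Fin n → Fin m → ℝ) = 0 := e.2
    rw [this]
    simp
  have hmax := hMPL (KB B) (GB B V p) hc hpos hk hdich 0 h0
  have e2 : GB B V p 0 = Mp p V := by
    unfold GB
    rw [hV0]
  have hMV : 0 < Mp p V := by
    rw [← e2]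
    exact hpos 0
  intro W
  by_cases hdet : (B * W).det = 0
  · rw [hdet, abs_zero, zero_mul]
    exact hMV.le
  · have hu : IsUnit (B * W).det := isUnit_iff_ne_zero.2 hdet
    have hWinj := ke_inj B W hu
    set C := (B * W)⁻¹ with hC
    have hBWC : B * (W * C) = 1 := by
      rw [← Matrix.mul_assoc, hC, Matrix.mul_nonsing_inv _ hu]
    have hmem : W * C - V ∈ KB B := by
      show B * Matrix.of (W * C - V) = 0
      have : Matrix.of (W * C - V) = W * C - V := rfl
      rw [this, Matrix.mul_sub, hBWC, hB1, sub_self]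
    have h1 := hmax ⟨W * C - V, hmem⟩
    have e1 : GB B V p ⟨W * C - V, hmem⟩ = Mp p (W * C) := by
      unfold GB
      congr 1
      show V + (W * C - V) = W * C
      abel
    rw [e1, e2] at h1
    have hCdet : C.det = ((B * W).det)⁻¹ := by
      rw [hC, Matrix.det_nonsing_inv, Ring.inverse_eq_inv']
    have hCne : C.det ≠ 0 := by
      rw [hCdet]
      exact inv_ne_zero hdet
    have e3 := (hNRM n m p W C hp hp3 hWinj hCne).2.1
    have e4 : |(B * W).det| * Mp p W = Mp p (W * C) := by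
      rw [← e3, hCdet, abs_inv]
      have : |(B * W).det| ≠ 0 := abs_ne_zero.mpr hdet
      field_simp
    rw [e4]
    exact h1

end Pool.Agent.Helper44.GJ
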