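import Pool.Agent.Helper44.GJ.Stmts

/-! Module LI0: the local inequality, normalised. -/

set_option autoImplicit false

open Finset MeasureTheory Filter Topology Matrix
open scoped ENNReal ContDiff

namespace Pool.Agent.Helper44.GJ

open Pool.Agent.Helper44.GF Pool.Agent.Helper44.GN Pool.Agent.Helper44.GH

/-- The trace of a square. -/
theorem li0_tr {m : ℕ} (N : Matrix (Fin m) (Fin m) ℝ) :
    -Matrix.trace (N * N) ≤ ∑ a, ∑ b, N a b ^ 2 := by
  have h1 : Matrix.trace (N * N) = ∑ a, ∑ b, N a b * N b a := by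
    unfold Matrix.trace
    refine Finset.sum_congr rfl fun a _ => ?_
    rw [Matrix.diag_apply, Matrix.mul_apply]
  have h2 : ∑ a, ∑ b, N b a ^ 2 = ∑ a, ∑ b, N a b ^ 2 := Finset.sum_comm
  have h3 : ∑ a, ∑ b, -(N a b * N b a) ≤ ∑ a, ∑ b, (1 / 2 * N a b ^ 2 + 1 / 2 * N b a ^ 2) := by
    refine Finset.sum_le_sum fun a _ => Finset.sum_le_sum fun b _ => ?_
    nlinarith [sq_nonneg (N a b + N b a)]
  have h4 : ∑ a, ∑ b, (1 / 2 * N a b ^ 2 + 1 / 2 * N b a ^ 2) = ∑ a, ∑ b, N a b ^ 2 := by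
    have h5 : ∑ a, ∑ b, (1 / 2 * N a b ^ 2 + 1 / 2 * N b a ^ 2) =
        1 / 2 * (∑ a, ∑ b, N a b ^ 2) + 1 / 2 * ∑ a, ∑ b, N b a ^ 2 := by
      simp only [Finset.mul_sum, Finset.sum_add_distrib]
    rw [h5, h2]
    ring
  have h5 : ∑ a, ∑ b, -(N a b * N b a) = -∑ a, ∑ b, N a b * N b a := by
    simp only [Finset.sum_neg_distrib]
  rw [h1, ← h5]
  linarith

theorem st_LI0 (hHVR : ST_HVR) (hGB3 : ST_GB3) (hDFM : ST_DFM) (hIN0 : ST_IN0) : ST_LI0 := by
  intro n m p V Z c hp hp' hV hR hT hz hc hZ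
  have hp3 : p ≤ 3 := by linarith
  obtain ⟨hM, -, -⟩ := hIN0 n m p V (by linarith) hV
  set N : Matrix (Fin m) (Fin m) ℝ := TT V Z c with hN
  set Z0 : Matrix (Fin n) (Fin m) ℝ := Z - V * N with hZ0
  have e0 : Z0 + V * N = Z := by rw [hZ0, sub_add_cancel]
  have hT0 : TT V Z0 c = 0 := by
    have h1 : TT V Z0 c = TT V Z c - TT V V c * N := by
      unfold TT
      rw [hZ0, Matrix.mul_sub]
      simp only [Matrix.mul_assoc]
    rw [h1, hT, Matrix.one_mul, hN, sub_self]
  have hz0 : ∀ i, V i = 0 → Z0 i = 0 := by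
    intro i hi
    funext b
    show Z i b - (V * N) i b = 0
    rw [Matrix.mul_apply, hz i hi]
    have h1 : ∀ j, V i j = 0 := fun j => congrFun hi j
    simp [h1]
  obtain ⟨d1, d2⟩ := hDFM n m p V Z0 N hp hp3 hV (by rw [e0]; exact hc)
  rw [e0] at d2
  have k1 := hHVR n m p V Z0 c hp hp' hV hR hT hT0 hz0
  have k2 := hGB3 n m p V Z0 c hp hp' hV hR hT hT0 hz0
  have k3 := li0_tr N
  set ζ : ℝ := ∑ i, c i * (Z0 i ⬝ᵥ Z0 i) with hζ
  have e1 : ∑ a, ∑ b, IE p V (fun x => x a * gz p V Z0 x b) ^ 2 = Mp p V ^ 2 * ∑ a, ∑ b, N a b ^ 2 := by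
    rw [Finset.mul_sum]
    refine Finset.sum_congr rfl fun a _ => ?_
    rw [Finset.mul_sum]
    refine Finset.sum_congr rfl fun b _ => ?_
    rw [d1 a b]
    ring
  rw [e1] at k2
  have hM2 : 0 < Mp p V ^ 2 := by positivity
  have hpos : ∀ i ∈ (Finset.univ : Finset (Fin n)), 0 ≤ c i * (Z0 i ⬝ᵥ Z0 i) := by
    intro i _
    exact mul_nonneg (hR.c0 i).le (Finset.sum_nonneg fun a _ => mul_self_nonneg _)
  have hζ0 : 0 < ζ := by
    rcases (Finset.sum_nonneg hpos).lt_or_eq with h | h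
    · exact h
    · exfalso
      have h1 : ∀ i, Z0 i = 0 := by
        intro i
        have h2 := (Finset.sum_eq_zero_iff_of_nonneg hpos).1 h.symm i (Finset.mem_univ i)
        have h3 : Z0 i ⬝ᵥ Z0 i = 0 := by
          rcases mul_eq_zero.1 h2 with h4 | h4
          · exact absurd h4 (hR.c0 i).ne'
          · exact h4
        exact dotProduct_self_eq_zero.1 h3
      have h2 : Z0 = 0 := funext h1
      have h3 : N = 0 := by
        ext a b
        have h4 := d1 a b
        have h5 : IE p V (fun x => x a * gz p V Z0 x b) = 0 := by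
          unfold IE
          have h6 : (fun x : Fin m → ℝ => (fun x => x a * gz p V Z0 x b) x * ee p V x) = fun _ => 0 := by
            funext x
            beta_reduce
            have h7 : gz p V Z0 x b = 0 := by
              unfold gz
              rw [h2]
              simp
            rw [h7, mul_zero, zero_mul]
          rw [h6, integral_zero]
        rw [h5] at h4
        have h8 : Mp p V * N a b = 0 := by linarith
        rcases mul_eq_zero.1 h8 with h9 | h9
        · exact absurd h9 hM.ne'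
        · exact h9
      apply hZ
      rw [← e0, h2, h3, Matrix.mul_zero, add_zero]
  have k4 := mul_le_mul_of_nonneg_left k3 hM2.le
  have k5 : 0 < ζ * Mp p V ^ 2 := mul_pos hζ0 hM2
  have k6 : Mp p V * M2 p V Z < 0 := by
    rw [d2]
    nlinarith
  by_contra hcon
  rw [not_lt] at hcon
  have := mul_nonneg hM.le hcon
  linarith

end Pool.Agent.Helper44.GJ
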