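import Pool.Agent.Helper44.GJ.Stmts

/-! Module ROW: the bounds on the weights. -/

open Finset MeasureTheory Filter Topology Matrix
open scoped ENNReal ContDiff

namespace Pool.Agent.Helper44.GJ

open Pool.Agent.Helper44.GF Pool.Agent.Helper44.GN Pool.Agent.Helper44.GH

/-! ### pointwise inequalities -/

/-- Bernoulli. -/
theorem row_bern {u θ : ℝ} (hu : 0 ≤ u) (h0 : 0 ≤ θ) (h1 : θ ≤ 1) : u ^ θ ≤ (1 - θ) + θ * u := by
  have h := Real.geom_mean_le_arith_mean2_weighted (sub_nonneg.mpr h1) h0 zero_le_one hu (by ring)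
  rw [Real.one_rpow, one_mul, mul_one] at h
  exact h

theorem row_dev {w θ : ℝ} (hw : 0 ≤ w) (h0 : 0 < θ) (h1 : θ ≤ 1) : (w ^ θ - 1) ^ 2 ≤ (w - 1) ^ 2 := by
  rcases le_total w 1 with h | h
  · have h2 : w ≤ w ^ θ := by
      rcases hw.eq_or_lt with h3 | h3
      · rw [← h3, Real.zero_rpow h0.ne']
      · have := Real.rpow_le_rpow_of_exponent_ge h3 h h1
        rwa [Real.rpow_one] at this
    have h3 : w ^ θ ≤ 1 := Real.rpow_le_one hw h h0.le
    nlinarith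
  · have h2 : w ^ θ ≤ w := by
      have := Real.rpow_le_rpow_of_exponent_le h h1
      rwa [Real.rpow_one] at this
    have h3 : 1 ≤ w ^ θ := Real.one_le_rpow h h0.le
    nlinarith

/-- The sum of a positive number and its inverse. -/
theorem row_cosh {u θ : ℝ} (hu : 0 ≤ u) (h0 : 0 < θ) (h1 : θ ≤ 1) :
    (u ^ θ + (u ^ θ)⁻¹ - 2) ^ 2 ≤ (u + u⁻¹ - 2) ^ 2 := by
  rcases hu.eq_or_lt with h | h
  · rw [← h, Real.zero_rpow h0.ne']
  · have hp : 0 < u ^ θ := Real.rpow_pos_of_pos h _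
    have e1 : 0 ≤ u ^ θ + (u ^ θ)⁻¹ - 2 := by
      have : u ^ θ + (u ^ θ)⁻¹ - 2 = (u ^ θ - 1) ^ 2 / u ^ θ := by
        field_simp
        ring
      rw [this]
      positivity
    have e3 : 0 ≤ u + u⁻¹ - 2 := by
      have : u + u⁻¹ - 2 = (u - 1) ^ 2 / u := by
        field_simp
        ring
      rw [this]
      positivity
    have e2 : u ^ θ + (u ^ θ)⁻¹ - 2 ≤ u + u⁻¹ - 2 := by
      have b1 := row_bern hu h0.le h1
      have b2 := row_bern (inv_nonneg.mpr hu) h0.le h1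
      rw [Real.inv_rpow hu] at b2
      nlinarith
    exact pow_le_pow_left₀ e1 e2 2

/-! ### transfer -/

theorem row_ct {n m : ℕ} (V : Matrix (Fin n) (Fin m) ℝ) (j : Fin n) :
    Continuous fun x : Fin m → ℝ => V.mulVec x j := by
  have : (fun x : Fin m → ℝ => V.mulVec x j) = fun x => ∑ a, V j a * x a := rfl
  rw [this]
  fun_prop

theorem row_lin {n m : ℕ} (V : Matrix (Fin n) (Fin m) ℝ) (j : Fin n) :
    ∃ C : ℝ, 0 ≤ C ∧ ∀ x : Fin m → ℝ, |V.mulVec x j| ≤ C * ‖x‖ := by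
  refine ⟨∑ a, |V j a|, Finset.sum_nonneg fun a _ => abs_nonneg _, fun x => ?_⟩
  show |∑ a, V j a * x a| ≤ _
  refine (Finset.abs_sum_le_sum_abs _ _).trans ?_
  rw [Finset.sum_mul]
  refine Finset.sum_le_sum fun a _ => ?_
  rw [abs_mul]
  exact mul_le_mul_of_nonneg_left (by simpa using norm_le_pi_norm x a) (abs_nonneg _)

theorem row_tr {n m : ℕ} {p : ℝ} {V : Matrix (Fin n) (Fin m) ℝ} {j : Fin n} {f : ℝ → ℝ} {M : ℝ}
    (hf : LC f M) (hee : Continuous (ee p V))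
    (hM : ∀ φ : ℝ → ℝ≥0∞, Measurable φ →
      ∫⁻ x : Fin m → ℝ, φ |V.mulVec x j| * ENNReal.ofReal (ee p V x)
        = ∫⁻ t in Set.Ioi (0 : ℝ), φ t * ENNReal.ofReal (f t))
    (φ : ℝ → ℝ) (hφ : Measurable φ) (h0 : ∀ t, 0 ≤ t → 0 ≤ φ t) :
    IE p V (fun x => φ |V.mulVec x j|) = ∫ t in Set.Ioi (0 : ℝ), φ t * f t := by
  unfold IE
  have m1 : Measurable (fun x : Fin m → ℝ => φ |V.mulVec x j|) :=
    hφ.comp (row_ct V j).abs.measurable
  rw [integral_eq_lintegral_of_nonneg_ae, integral_eq_lintegral_of_nonneg_ae]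
  · congr 1
    have h1 := hM (fun t => ENNReal.ofReal (φ t)) hφ.ennreal_ofReal
    have e1 : ∀ x : Fin m → ℝ, ENNReal.ofReal (φ |V.mulVec x j| * ee p V x) =
        ENNReal.ofReal (φ |V.mulVec x j|) * ENNReal.ofReal (ee p V x) := fun x =>
      ENNReal.ofReal_mul (h0 _ (abs_nonneg _))
    simp only [e1]
    rw [h1]
    refine setLIntegral_congr_fun measurableSet_Ioi fun t ht => ?_
    exact (ENNReal.ofReal_mul (h0 t (le_of_lt ht))).symm
  · refine (ae_restrict_mem measurableSet_Ioi).mono fun t ht => ?_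
    exact mul_nonneg (h0 t (le_of_lt ht)) (hf.ps t ht).le
  · exact (hφ.mul hf.ms).aestronglyMeasurable
  · exact Filter.Eventually.of_forall fun x => mul_nonneg (h0 _ (abs_nonneg _)) (Real.exp_pos _).le
  · exact (m1.mul hee.measurable).aestronglyMeasurable

/-! ### the row -/

/-- One row. -/
theorem row_one (h0 : ST_IN0) (h1 : ST_IN1) {n m : ℕ} {p : ℝ} {V : Matrix (Fin n) (Fin m) ℝ}
    (hp1 : 2 < p) (hp2 : p ≤ 11 / 5) (hV : Function.Injective V.mulVec) {j : Fin n} (hj : V j ≠ 0)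
    {f : ℝ → ℝ} (hf : LC f (Mp p V))
    (hM : ∀ φ : ℝ → ℝ≥0∞, Measurable φ →
      ∫⁻ x : Fin m → ℝ, φ |V.mulVec x j| * ENNReal.ofReal (ee p V x)
        = ∫⁻ t in Set.Ioi (0 : ℝ), φ t * ENNReal.ofReal (f t)) {s : ℝ} (hs : 0 < s)
    (s1 : ∫ t in Set.Ioi (0 : ℝ), (t / s) ^ (1 / 5 : ℝ) * f t ≤ 26 / 25 * Mp p V)
    (s2 : ∫ t in Set.Ioi (0 : ℝ), (t / s) ^ (-(1 / 5) : ℝ) * f t ≤ 26 / 25 * Mp p V)
    (s3 : ∫ t in Set.Ioi (0 : ℝ), ((t / s) ^ (-(1 / 5) : ℝ)) ^ 2 * f t ≤ 6 / 5 * Mp p V)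
    (s4 : ∫ t in Set.Ioi (0 : ℝ), ((t / s) ^ (-(1 / 5) : ℝ) - 1) ^ 2 * f t ≤ 13 / 100 * Mp p V)
    (s5 : ∫ t in Set.Ioi (0 : ℝ),
      ((t / s) ^ (1 / 5 : ℝ) + (t / s) ^ (-(1 / 5) : ℝ) - 2) ^ 2 * f t ≤ 1 / 20 * Mp p V)
    {c : Fin n → ℝ} (hc : c j = p * (p - 1) * s ^ (p - 2)) :
    IE p V (fun x => Yj p V c j x) ≤ 26 / 25 * Mp p V ∧
    IE p V (fun x => (Yj p V c j x)⁻¹) ≤ 26 / 25 * Mp p V ∧
    IE p V (fun x => (Yj p V c j x)⁻¹ ^ 2) ≤ 6 / 5 * Mp p V ∧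
    IE p V (fun x => Yj p V c j x + (Yj p V c j x)⁻¹ - 2) ≤ 2 / 25 * Mp p V ∧
    IE p V (fun x => ((Yj p V c j x)⁻¹ - 1) ^ 2) ≤ 13 / 100 * Mp p V ∧
    IE p V (fun x => (Yj p V c j x + (Yj p V c j x)⁻¹ - 2) ^ 2) ≤ 1 / 20 * Mp p V := by
  obtain ⟨hMpos, hec, hint⟩ := h0 n m p V (by linarith) hV
  obtain ⟨L, hL0, hL⟩ := row_lin V j
  set θ : ℝ := 5 * (p - 2) with hθ
  have hθ0 : 0 < θ := by rw [hθ]; linarith
  have hθ1 : θ ≤ 1 := by rw [hθ]; linarith
  have hee : ∀ x, 0 ≤ ee p V x := fun x => (Real.exp_pos _).le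
  set T : (Fin m → ℝ) → ℝ := fun x => |V.mulVec x j| with hT
  have hTc : Continuous T := (row_ct V j).abs
  have hT0 : ∀ x, 0 ≤ T x := fun x => abs_nonneg _
  set u : ℝ → ℝ := fun t => (t / s) ^ (1 / 5 : ℝ) with hu
  set v : ℝ → ℝ := fun t => (t / s) ^ (-(1 / 5) : ℝ) with hv
  have um : Measurable u := (measurable_id.div_const s).pow_const _
  have vm : Measurable v := (measurable_id.div_const s).pow_const _
  have hu0 : ∀ t, 0 ≤ t → 0 ≤ u t := fun t ht => Real.rpow_nonneg (div_nonneg ht hs.le) _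
  have hv0 : ∀ t, 0 ≤ t → 0 ≤ v t := fun t ht => Real.rpow_nonneg (div_nonneg ht hs.le) _
  have huv : ∀ t, 0 ≤ t → v t = (u t)⁻¹ := fun t ht => Real.rpow_neg (div_nonneg ht hs.le) _
  -- the weight
  have hY : ∀ x, Yj p V c j x = u (T x) ^ θ := by
    intro x
    have hpp : p * (p - 1) ≠ 0 := by
      have : 0 < p * (p - 1) := mul_pos (by linarith) (by linarith)
      exact this.ne'
    have e1 : u (T x) ^ θ = (T x / s) ^ (p - 2) := by
      rw [hu, hθ]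
      beta_reduce
      rw [← Real.rpow_mul (div_nonneg (hT0 x) hs.le)]
      congr 1
      ring
    rw [e1, Real.div_rpow (hT0 x) hs.le]
    unfold Yj g2
    rw [hc, mul_div_mul_left _ _ hpp]
  -- integrability
  have uT : ∀ x, u (T x) ≤ (1 / s + 1) * (1 + L) * (1 + ‖x‖) := by
    intro x
    have h2 : u (T x) ≤ 1 + T x / s := by
      have h3 := row_bern (div_nonneg (hT0 x) hs.le) (show (0 : ℝ) ≤ 1 / 5 by norm_num) (by norm_num)
      have h4 : 0 ≤ T x / s := div_nonneg (hT0 x) hs.le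
      have h5 : u (T x) = (T x / s) ^ (1 / 5 : ℝ) := rfl
      rw [h5]
      linarith
    have h3 := hL x
    have h4 : T x / s ≤ L * ‖x‖ * (1 / s) := by
      rw [div_eq_mul_one_div]
      exact mul_le_mul_of_nonneg_right h3 (by positivity)
    have h5 := norm_nonneg x
    have h6 : 0 < 1 / s := by positivity
    have h7 : 0 ≤ L * ‖x‖ := mul_nonneg hL0 h5
    have h8 : (1 / s + 1) * (1 + L) * (1 + ‖x‖) = (1 / s + 1) * (1 + L + ‖x‖ + L * ‖x‖) := by ring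
    rw [h8]
    have h9 : 1 + L * ‖x‖ * (1 / s) ≤ (1 / s + 1) * (1 + L * ‖x‖) := by nlinarith
    have h10 : (1 / s + 1) * (1 + L * ‖x‖) ≤ (1 / s + 1) * (1 + L + ‖x‖ + L * ‖x‖) :=
      mul_le_mul_of_nonneg_left (by linarith) (by linarith)
    linarith
  have iu : Integrable (fun x => u (T x) * ee p V x) := by
    refine hint _ ((1 / s + 1) * (1 + L)) 1 (um.comp hTc.measurable).aestronglyMeasurable fun x => ?_
    rw [abs_of_nonneg (hu0 _ (hT0 x)), pow_one]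
    exact uT x
  have iu2 : Integrable (fun x => u (T x) ^ 2 * ee p V x) := by
    refine hint _ (((1 / s + 1) * (1 + L)) ^ 2) 2 ((um.comp hTc.measurable).pow_const 2).aestronglyMeasurable
      fun x => ?_
    rw [abs_of_nonneg (sq_nonneg _), ← mul_pow]
    exact pow_le_pow_left₀ (hu0 _ (hT0 x)) (uT x) 2
  have vT : ∀ x, v (T x) = s ^ (1 / 5 : ℝ) * T x ^ (-(1 / 5) : ℝ) := by
    intro x
    have h5 : v (T x) = (T x / s) ^ (-(1 / 5) : ℝ) := rfl
    rw [h5, Real.div_rpow (hT0 x) hs.le, Real.rpow_neg hs.le, div_inv_eq_mul, mul_comm]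
  have iv : Integrable (fun x => v (T x) * ee p V x) := by
    have h := h1 n m p V hp1 (by linarith) hV j j hj hj (1 / 5) 0 (by norm_num)
      le_rfl (by norm_num) (fun _ => s ^ (1 / 5 : ℝ)) (s ^ (1 / 5 : ℝ)) 0 aestronglyMeasurable_const (fun x => by
        rw [abs_of_nonneg (by positivity)]; simp)
    refine h.congr (Filter.Eventually.of_forall fun x => ?_)
    show |V.mulVec x j| ^ (-(1 / 5) : ℝ) * |V.mulVec x j| ^ (-0 : ℝ) * s ^ (1 / 5 : ℝ) * ee p V x =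
      v (T x) * ee p V x
    rw [neg_zero, Real.rpow_zero, vT]
    ring
  have iv2 : Integrable (fun x => v (T x) ^ 2 * ee p V x) := by
    have h := h1 n m p V hp1 (by linarith) hV j j hj hj (1 / 5) (1 / 5) (by norm_num)
      (by norm_num) (by norm_num) (fun _ => (s ^ (1 / 5 : ℝ)) ^ 2) ((s ^ (1 / 5 : ℝ)) ^ 2) 0
      aestronglyMeasurable_const (fun x => by
        rw [abs_of_nonneg (by positivity)]; simp)
    refine h.congr (Filter.Eventually.of_forall fun x => ?_)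
    show |V.mulVec x j| ^ (-(1 / 5) : ℝ) * |V.mulVec x j| ^ (-(1 / 5) : ℝ) * (s ^ (1 / 5 : ℝ)) ^ 2 * ee p V x =
      v (T x) ^ 2 * ee p V x
    rw [vT]
    ring
  have i1 : Integrable (fun x : Fin m → ℝ => (1 : ℝ) * ee p V x) :=
    hint _ 1 0 aestronglyMeasurable_const fun x => by simp
  have em : Measurable (ee p V) := hec.measurable
  have uTm : Measurable fun x => u (T x) := um.comp hTc.measurable
  have vTm : Measurable fun x => v (T x) := vm.comp hTc.measurable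
  have iv1 : Integrable (fun x => (v (T x) - 1) ^ 2 * ee p V x) := by
    refine ((iv2.add i1).const_mul 2).mono' (((vTm.sub_const 1).pow_const 2).mul em).aestronglyMeasurable
      (Filter.Eventually.of_forall fun x => ?_)
    rw [Real.norm_eq_abs, abs_of_nonneg (mul_nonneg (sq_nonneg _) (hee x))]
    show _ ≤ 2 * (v (T x) ^ 2 * ee p V x + 1 * ee p V x)
    have h2 : (v (T x) - 1) ^ 2 ≤ 2 * (v (T x) ^ 2 + 1) := by nlinarith [sq_nonneg (v (T x) + 1)]
    have h3 := mul_le_mul_of_nonneg_right h2 (hee x)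
    linarith
  have iuv : Integrable (fun x => (u (T x) + v (T x) - 2) ^ 2 * ee p V x) := by
    refine (((iu2.add iv2).add (i1.const_mul 4)).const_mul 3).mono'
      ((((uTm.add vTm).sub_const 2).pow_const 2).mul em).aestronglyMeasurable
      (Filter.Eventually.of_forall fun x => ?_)
    rw [Real.norm_eq_abs, abs_of_nonneg (mul_nonneg (sq_nonneg _) (hee x))]
    show _ ≤ 3 * (u (T x) ^ 2 * ee p V x + v (T x) ^ 2 * ee p V x + 4 * (1 * ee p V x))
    have h2 : (u (T x) + v (T x) - 2) ^ 2 ≤ 3 * (u (T x) ^ 2 + v (T x) ^ 2 + 4) := by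
      nlinarith [sq_nonneg (u (T x) - v (T x)), sq_nonneg (u (T x) + 2), sq_nonneg (v (T x) + 2)]
    have h3 := mul_le_mul_of_nonneg_right h2 (hee x)
    linarith
  -- the values on the space
  have t1 : ∫ x, u (T x) * ee p V x ≤ 26 / 25 * Mp p V := (row_tr hf hec hM u um hu0).le.trans s1
  have t2 : ∫ x, v (T x) * ee p V x ≤ 26 / 25 * Mp p V := (row_tr hf hec hM v vm hv0).le.trans s2
  have t3 : ∫ x, v (T x) ^ 2 * ee p V x ≤ 6 / 5 * Mp p V :=
    (row_tr hf hec hM (fun t => v t ^ 2) (vm.pow_const 2) (fun t _ => sq_nonneg _)).le.trans s3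
  have t4 : ∫ x, (v (T x) - 1) ^ 2 * ee p V x ≤ 13 / 100 * Mp p V :=
    (row_tr hf hec hM (fun t => (v t - 1) ^ 2) ((vm.sub_const 1).pow_const 2) (fun t _ => sq_nonneg _)).le.trans s4
  have t5 : ∫ x, (u (T x) + v (T x) - 2) ^ 2 * ee p V x ≤ 1 / 20 * Mp p V :=
    (row_tr hf hec hM (fun t => (u t + v t - 2) ^ 2) (((um.add vm).sub_const 2).pow_const 2)
      (fun t _ => sq_nonneg _)).le.trans s5
  have t0 : ∫ x, (1 : ℝ) * ee p V x = Mp p V := by
    unfold Mp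
    simp only [one_mul]
  -- the functions
  have hYv : ∀ x, (Yj p V c j x)⁻¹ = v (T x) ^ θ := by
    intro x
    rw [hY, huv _ (hT0 x), Real.inv_rpow (hu0 _ (hT0 x))]
  have hY0 : ∀ x, 0 ≤ Yj p V c j x := fun x => by
    rw [hY]
    exact Real.rpow_nonneg (hu0 _ (hT0 x)) _
  have hYm : Measurable (Yj p V c j) := by
    have : Yj p V c j = fun x => u (T x) ^ θ := funext hY
    rw [this]
    exact uTm.pow_const θ
  have b1 : ∀ x, Yj p V c j x * ee p V x ≤ (1 - θ) * (1 * ee p V x) + θ * (u (T x) * ee p V x) := by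
    intro x
    rw [hY]
    have h3 := mul_le_mul_of_nonneg_right (row_bern (hu0 _ (hT0 x)) hθ0.le hθ1) (hee x)
    linarith
  have b2 : ∀ x, (Yj p V c j x)⁻¹ * ee p V x ≤ (1 - θ) * (1 * ee p V x) + θ * (v (T x) * ee p V x) := by
    intro x
    rw [hYv]
    have h3 := mul_le_mul_of_nonneg_right (row_bern (hv0 _ (hT0 x)) hθ0.le hθ1) (hee x)
    linarith
  have g1' := (i1.const_mul (1 - θ)).add (iu.const_mul θ)
  have g2' := (i1.const_mul (1 - θ)).add (iv.const_mul θ)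
  have g3' := (i1.const_mul (1 - θ)).add (iv2.const_mul θ)
  have iY : Integrable (fun x => Yj p V c j x * ee p V x) := by
    refine g1'.mono' (hYm.mul em).aestronglyMeasurable (Filter.Eventually.of_forall fun x => ?_)
    rw [Real.norm_eq_abs, abs_of_nonneg (mul_nonneg (hY0 x) (hee x))]
    exact b1 x
  have iY' : Integrable (fun x => (Yj p V c j x)⁻¹ * ee p V x) := by
    refine g2'.mono' (hYm.inv.mul em).aestronglyMeasurable (Filter.Eventually.of_forall fun x => ?_)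
    rw [Real.norm_eq_abs, abs_of_nonneg (mul_nonneg (inv_nonneg.mpr (hY0 x)) (hee x))]
    exact b2 x
  have gi : ∀ g : (Fin m → ℝ) → ℝ, Integrable g →
      ∫ x, ((1 - θ) * (1 * ee p V x) + θ * g x) = (1 - θ) * Mp p V + θ * ∫ x, g x := by
    intro g hg
    rw [integral_add (i1.const_mul (1 - θ)) (hg.const_mul θ),
      integral_const_mul (1 - θ) (fun x => (1 : ℝ) * ee p V x), integral_const_mul θ g, t0]
  have r1 : IE p V (fun x => Yj p V c j x) ≤ 26 / 25 * Mp p V := by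
    have h2 : ∫ x, Yj p V c j x * ee p V x ≤ ∫ x, ((1 - θ) * (1 * ee p V x) + θ * (u (T x) * ee p V x)) :=
      integral_mono iY g1' b1
    rw [gi _ iu] at h2
    show ∫ x, Yj p V c j x * ee p V x ≤ _
    nlinarith
  have r2 : IE p V (fun x => (Yj p V c j x)⁻¹) ≤ 26 / 25 * Mp p V := by
    have h2 : ∫ x, (Yj p V c j x)⁻¹ * ee p V x ≤ ∫ x, ((1 - θ) * (1 * ee p V x) + θ * (v (T x) * ee p V x)) :=
      integral_mono iY' g2' b2
    rw [gi _ iv] at h2
    show ∫ x, (Yj p V c j x)⁻¹ * ee p V x ≤ _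
    nlinarith
  refine ⟨r1, r2, ?_, ?_, ?_, ?_⟩
  · have h2 : ∫ x, (Yj p V c j x)⁻¹ ^ 2 * ee p V x ≤
        ∫ x, ((1 - θ) * (1 * ee p V x) + θ * (v (T x) ^ 2 * ee p V x)) := by
      refine integral_mono_of_nonneg (Filter.Eventually.of_forall fun x => mul_nonneg (sq_nonneg _) (hee x)) g3'
        (Filter.Eventually.of_forall fun x => ?_)
      show (Yj p V c j x)⁻¹ ^ 2 * ee p V x ≤ (1 - θ) * (1 * ee p V x) + θ * (v (T x) ^ 2 * ee p V x)
      have h4 : (v (T x) ^ θ) ^ 2 = (v (T x) ^ 2) ^ θ := by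
        rw [← Real.rpow_natCast, ← Real.rpow_natCast, ← Real.rpow_mul (hv0 _ (hT0 x)),
          ← Real.rpow_mul (hv0 _ (hT0 x)), mul_comm]
      rw [hYv, h4]
      have h3 := mul_le_mul_of_nonneg_right (row_bern (sq_nonneg (v (T x))) hθ0.le hθ1) (hee x)
      linarith
    rw [gi _ iv2] at h2
    show ∫ x, (Yj p V c j x)⁻¹ ^ 2 * ee p V x ≤ _
    nlinarith
  · show ∫ x, (Yj p V c j x + (Yj p V c j x)⁻¹ - 2) * ee p V x ≤ _
    have h2 : ∀ x, (Yj p V c j x + (Yj p V c j x)⁻¹ - 2) * ee p V x =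
        Yj p V c j x * ee p V x + (Yj p V c j x)⁻¹ * ee p V x - 2 * (1 * ee p V x) := fun x => by ring
    have h3 : ∫ x, (Yj p V c j x + (Yj p V c j x)⁻¹ - 2) * ee p V x =
        ∫ x, (Yj p V c j x * ee p V x + (Yj p V c j x)⁻¹ * ee p V x - 2 * (1 * ee p V x)) :=
      integral_congr_ae (Filter.Eventually.of_forall h2)
    have h4 : ∫ x, (Yj p V c j x * ee p V x + (Yj p V c j x)⁻¹ * ee p V x - 2 * (1 * ee p V x)) =
        (∫ x, (Yj p V c j x * ee p V x + (Yj p V c j x)⁻¹ * ee p V x)) - ∫ x, 2 * (1 * ee p V x) :=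
      integral_sub (iY.add iY') (i1.const_mul 2)
    rw [h3, h4, integral_add iY iY', integral_const_mul 2 (fun x => (1 : ℝ) * ee p V x), t0]
    have r1' : ∫ x, Yj p V c j x * ee p V x ≤ 26 / 25 * Mp p V := r1
    have r2' : ∫ x, (Yj p V c j x)⁻¹ * ee p V x ≤ 26 / 25 * Mp p V := r2
    linarith
  · refine le_trans ?_ t4
    refine integral_mono_of_nonneg (Filter.Eventually.of_forall fun x => mul_nonneg (sq_nonneg _) (hee x)) iv1
      (Filter.Eventually.of_forall fun x => ?_)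
    show ((Yj p V c j x)⁻¹ - 1) ^ 2 * ee p V x ≤ (v (T x) - 1) ^ 2 * ee p V x
    rw [hYv]
    exact mul_le_mul_of_nonneg_right (row_dev (hv0 _ (hT0 x)) hθ0 hθ1) (hee x)
  · refine le_trans ?_ t5
    refine integral_mono_of_nonneg (Filter.Eventually.of_forall fun x => mul_nonneg (sq_nonneg _) (hee x)) iuv
      (Filter.Eventually.of_forall fun x => ?_)
    show (Yj p V c j x + (Yj p V c j x)⁻¹ - 2) ^ 2 * ee p V x ≤ (u (T x) + v (T x) - 2) ^ 2 * ee p V x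
    rw [hY, huv _ (hT0 x)]
    exact mul_le_mul_of_nonneg_right (row_cosh (hu0 _ (hT0 x)) hθ0 hθ1) (hee x)

theorem st_ROW (hS : ST_SCB) (hR : ST_MAR) (h0 : ST_IN0) (h1 : ST_IN1) : ST_ROW := by
  intro n m p V hp1 hp2 hV
  have key : ∀ j, ∃ a : ℝ, 0 < a ∧ (V j ≠ 0 → ∀ c : Fin n → ℝ, c j = a →
      IE p V (fun x => Yj p V c j x) ≤ 26 / 25 * Mp p V ∧
      IE p V (fun x => (Yj p V c j x)⁻¹) ≤ 26 / 25 * Mp p V ∧
      IE p V (fun x => (Yj p V c j x)⁻¹ ^ 2) ≤ 6 / 5 * Mp p V ∧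
      IE p V (fun x => Yj p V c j x + (Yj p V c j x)⁻¹ - 2) ≤ 2 / 25 * Mp p V ∧
      IE p V (fun x => ((Yj p V c j x)⁻¹ - 1) ^ 2) ≤ 13 / 100 * Mp p V ∧
      IE p V (fun x => (Yj p V c j x + (Yj p V c j x)⁻¹ - 2) ^ 2) ≤ 1 / 20 * Mp p V) := by
    intro j
    by_cases hj : V j = 0
    · exact ⟨1, one_pos, fun h => absurd hj h⟩
    · obtain ⟨f, hf, hM⟩ := hR n m p V hp1 (by linarith) hV j hj
      obtain ⟨s, hs, s1, s2, s3, s4, s5⟩ := hS f (Mp p V) hf
      refine ⟨p * (p - 1) * s ^ (p - 2), ?_, fun hj' c hc => ?_⟩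
      · have h2 : 0 < p * (p - 1) := mul_pos (by linarith) (by linarith)
        exact mul_pos h2 (Real.rpow_pos_of_pos hs _)
      · exact row_one h0 h1 hp1 hp2 hV hj' hf hM hs s1 s2 s3 s4 s5 hc
  choose c hc0 hc using key
  exact ⟨c, hc0, fun j hj => (hc j hj c rfl).1, fun j hj => (hc j hj c rfl).2.1,
    fun j hj => (hc j hj c rfl).2.2.1, fun j hj => (hc j hj c rfl).2.2.2.1,
    fun j hj => (hc j hj c rfl).2.2.2.2.1, fun j hj => (hc j hj c rfl).2.2.2.2.2⟩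

end Pool.Agent.Helper44.GJ
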