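import Pool.Agent.Helper51.GJ.IBP
import Pool.Agent.Helper51.GJ.BLU
import Pool.Agent.Helper8.GJ.SE2

/-! Module SE1: second moments. -/

set_option autoImplicit false

open Finset MeasureTheory Filter Topology Matrix
open scoped ENNReal ContDiff

namespace Pool.Agent.Helper44.GJ

open Pool.Agent.Helper44.GF Pool.Agent.Helper44.GN Pool.Agent.Helper44.GH

section se1

variable {n m : ℕ} {p : ℝ} (V : Matrix (Fin n) (Fin m) ℝ)

/-- The derivative of `∑ g1 (t_i) a_i`. -/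
theorem se1_der (hGD : ST_GD) (hp : 2 < p) (hp3 : p ≤ 3) (a : Fin n → ℝ) (x h : Fin m → ℝ) :
    HasDerivAt (fun r : ℝ => ∑ i, g1 p (V.mulVec (x + r • h) i) * a i)
      (∑ i, g2 p (V.mulVec x i) * V.mulVec h i * a i) 0 := by
  obtain ⟨-, hd, -⟩ := hGD p hp hp3
  refine HasDerivAt.fun_sum fun i _ => ?_
  have h2 : (fun r : ℝ => g1 p (V.mulVec (x + r • h) i)) = g1 p ∘ fun r : ℝ => V.mulVec x i + r * V.mulVec h i := by
    funext r
    rw [GB2.mulVec_add_smul]
    rfl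
  have h3 : HasDerivAt (fun r : ℝ => V.mulVec x i + r * V.mulVec h i) (V.mulVec h i) 0 := by
    have h4 := ((hasDerivAt_id (0 : ℝ)).mul_const (V.mulVec h i)).const_add (V.mulVec x i)
    rw [one_mul] at h4
    exact h4
  have h5 : HasDerivAt (g1 p) (g2 p (V.mulVec x i)) ((fun r : ℝ => V.mulVec x i + r * V.mulVec h i) 0) := by
    have h6 : (fun r : ℝ => V.mulVec x i + r * V.mulVec h i) 0 = V.mulVec x i := by
      show V.mulVec x i + 0 * V.mulVec h i = V.mulVec x i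
      ring
    rw [h6]
    exact hd _
  have h7 := (h5.comp (0 : ℝ) h3).mul_const (a i)
  rw [← h2] at h7
  exact h7

/-- Growth of `∑ g2 (t_i) b_i`. -/
theorem se1_gr (hGD : ST_GD) (hp : 2 < p) (hp3 : p ≤ 3) (b : Fin n → ℝ) : ∃ D : ℝ, 0 ≤ D ∧
    ∀ x : Fin m → ℝ, |∑ i, g2 p (V.mulVec x i) * b i| ≤ D * (1 + ‖x‖) ^ 2 := by
  obtain ⟨-, -, -, -, hg0, -, -, hb2, -⟩ := hGD p hp hp3
  obtain ⟨A, hA1, hA⟩ := GB2.row_le V
  refine ⟨∑ i, 6 * A * |b i|, Finset.sum_nonneg fun i _ => by positivity, fun x => ?_⟩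
  refine (Finset.abs_sum_le_sum_abs _ _).trans ?_
  rw [Finset.sum_mul]
  refine Finset.sum_le_sum fun i _ => ?_
  rw [abs_mul, abs_of_nonneg (hg0 _)]
  have h0 := norm_nonneg x
  have h1 : (1 + ‖x‖) ≤ (1 + ‖x‖) ^ 2 := by nlinarith
  have h2 := hA x i
  have h3 : g2 p (V.mulVec x i) ≤ 6 * A * (1 + ‖x‖) ^ 2 := by
    refine (hb2 _).trans ?_
    have h4 := mul_le_mul_of_nonneg_left h1 (by positivity : 0 ≤ 6 * A)
    nlinarith
  calc g2 p (V.mulVec x i) * |b i| ≤ 6 * A * (1 + ‖x‖) ^ 2 * |b i| :=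
        mul_le_mul_of_nonneg_right h3 (abs_nonneg _)
    _ = _ := by ring

/-- The upper bound. -/
theorem se1_up (hBLU : ST_BLU) (hIN1 : ST_IN1) (c : Fin n → ℝ) (hp : 2 < p) (hp' : p ≤ 11 / 5)
    (hV : Function.Injective V.mulVec) (hR : RW p V c) (hT : TT V V c = 1) (v : Fin m → ℝ) :
    IE p V (fun x => (v ⬝ᵥ x) ^ 2) ≤ 26 / 25 * (v ⬝ᵥ v) * Mp p V := by
  obtain ⟨bi, -, bl⟩ := hBLU n m p V hp (by linarith) hV (fun x => v ⬝ᵥ x) (fun i _ => c i * V.mulVec v i)
    (se2_rg V c hT v)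
  refine (bl fun x => by rw [dotProduct_neg]).trans ?_
  have hi : ∀ i ∈ (Finset.univ : Finset (Fin n)),
      Integrable (fun x : Fin m → ℝ => (c i * V.mulVec v i) ^ 2 / g2 p (V.mulVec x i) * ee p V x) := by
    intro i _
    exact blu_int hIN1 hp (by linarith) V hV (fun _ => c i * V.mulVec v i) continuous_const
      |c i * V.mulVec v i| 0 (fun x => by rw [pow_zero, mul_one]) i
  have e1 : IE p V (fun x => ∑ i, (c i * V.mulVec v i) ^ 2 / g2 p (V.mulVec x i)) =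
      ∑ i, ∫ x, (c i * V.mulVec v i) ^ 2 / g2 p (V.mulVec x i) * ee p V x := by
    unfold IE
    rw [← integral_finsetSum _ hi]
    congr 1
    funext x
    rw [Finset.sum_mul]
  rw [e1]
  have h2 : ∀ i ∈ (Finset.univ : Finset (Fin n)),
      ∫ x, (c i * V.mulVec v i) ^ 2 / g2 p (V.mulVec x i) * ee p V x ≤
        c i * V.mulVec v i * V.mulVec v i * (26 / 25 * Mp p V) := by
    intro i _
    have e2 : ∫ x, (c i * V.mulVec v i) ^ 2 / g2 p (V.mulVec x i) * ee p V x =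
        c i * V.mulVec v i * V.mulVec v i * IE p V (fun x => (Yj p V c i x)⁻¹) := by
      unfold IE
      rw [← integral_const_mul]
      congr 1
      funext x
      unfold Yj
      beta_reduce
      rw [inv_div]
      ring
    rw [e2]
    by_cases hi0 : V i = 0
    · have h1 : V.mulVec v i = 0 := by
        show V i ⬝ᵥ v = 0
        rw [hi0, zero_dotProduct]
      rw [h1]
      simp
    · refine mul_le_mul_of_nonneg_left (hR.r2 i hi0) ?_
      rw [mul_assoc]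
      exact mul_nonneg (hR.c0 i).le (mul_self_nonneg _)
  refine (Finset.sum_le_sum h2).trans (le_of_eq ?_)
  rw [← Finset.sum_mul, se2_quad V c hT v v]
  ring

/-- The second moment of `P = ∑ g1 (t_i) (V v)_i`. -/
theorem se1_P (hIBP : ST_IBP) (hGD : ST_GD) (hIN0 : ST_IN0) (c : Fin n → ℝ) (hp : 2 < p)
    (hp' : p ≤ 11 / 5) (hV : Function.Injective V.mulVec) (hR : RW p V c) (hT : TT V V c = 1)
    (v : Fin m → ℝ) :
    IE p V (fun x => (∑ i, g1 p (V.mulVec x i) * V.mulVec v i) ^ 2) ≤ 26 / 25 * (v ⬝ᵥ v) * Mp p V := by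
  have hp3 : p ≤ 3 := by linarith
  obtain ⟨-, -, hc1, hc2, hg0, -, -, hb2, -⟩ := hGD p hp hp3
  obtain ⟨-, -, hint⟩ := hIN0 n m p V (by linarith) hV
  obtain ⟨D1, hD10, hD1⟩ := ibp_gr hGD hp hp3 V v
  obtain ⟨D2, hD20, hD2⟩ := se1_gr V hGD hp hp3 (fun i => V.mulVec v i * V.mulVec v i)
  set P : (Fin m → ℝ) → ℝ := fun x => ∑ i, g1 p (V.mulVec x i) * V.mulVec v i with hP
  set Q : (Fin m → ℝ) → ℝ := fun x => ∑ i, g2 p (V.mulVec x i) * (V.mulVec v i * V.mulVec v i) with hQ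
  have key := hIBP n m p V hp hp3 hV v P Q (D1 + D2) 2 (fun x => by
      have h1 := se1_der V hGD hp hp3 (fun i => V.mulVec v i) x v
      have h2 : Q x = ∑ i, g2 p (V.mulVec x i) * V.mulVec v i * V.mulVec v i := by
        rw [hQ]
        exact Finset.sum_congr rfl fun i _ => by ring
      rw [h2]
      exact h1)
    (continuous_finsetSum _ fun i _ => (hc1.comp (GB2.cont_row V i)).mul continuous_const)
    (continuous_finsetSum _ fun i _ => (hc2.comp (GB2.cont_row V i)).mul continuous_const)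
    (fun x => (hD1 x).trans (by
      have := norm_nonneg x
      exact mul_le_mul_of_nonneg_right (by linarith) (by positivity)))
    (fun x => (hD2 x).trans (by
      have := norm_nonneg x
      exact mul_le_mul_of_nonneg_right (by linarith) (by positivity)))
  have e1 : IE p V (fun x => P x ^ 2) = IE p V Q := by
    rw [key]
    unfold IE
    congr 1
    funext x
    show P x ^ 2 * ee p V x = P x * P x * ee p V x
    ring
  show IE p V (fun x => P x ^ 2) ≤ _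
  rw [e1]
  have hi : ∀ i ∈ (Finset.univ : Finset (Fin n)),
      Integrable (fun x : Fin m → ℝ => g2 p (V.mulVec x i) * (V.mulVec v i * V.mulVec v i) * ee p V x) := by
    intro i _
    obtain ⟨A, hA1, hA⟩ := GB2.row_le V
    refine hint (fun x => g2 p (V.mulVec x i) * (V.mulVec v i * V.mulVec v i))
      (6 * A * (V.mulVec v i * V.mulVec v i)) 1
      ((hc2.comp (GB2.cont_row V i)).mul continuous_const).aestronglyMeasurable (fun x => ?_)
    have h4 : 0 ≤ V.mulVec v i * V.mulVec v i := mul_self_nonneg _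
    rw [abs_of_nonneg (mul_nonneg (hg0 _) h4), pow_one]
    have h5 : g2 p (V.mulVec x i) ≤ 6 * A * (1 + ‖x‖) := by
      have h2 := hA x i
      refine (hb2 _).trans ?_
      linarith
    calc g2 p (V.mulVec x i) * (V.mulVec v i * V.mulVec v i) ≤
          6 * A * (1 + ‖x‖) * (V.mulVec v i * V.mulVec v i) := mul_le_mul_of_nonneg_right h5 h4
      _ = _ := by ring
  have e2 : IE p V Q = ∑ i, ∫ x, g2 p (V.mulVec x i) * (V.mulVec v i * V.mulVec v i) * ee p V x := by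
    unfold IE
    rw [← integral_finsetSum _ hi]
    congr 1
    funext x
    rw [hQ]
    beta_reduce
    rw [Finset.sum_mul]
  rw [e2]
  have h2 : ∀ i ∈ (Finset.univ : Finset (Fin n)),
      ∫ x, g2 p (V.mulVec x i) * (V.mulVec v i * V.mulVec v i) * ee p V x ≤
        c i * V.mulVec v i * V.mulVec v i * (26 / 25 * Mp p V) := by
    intro i _
    have hci := (hR.c0 i).ne'
    have e3 : ∫ x, g2 p (V.mulVec x i) * (V.mulVec v i * V.mulVec v i) * ee p V x =
        c i * V.mulVec v i * V.mulVec v i * IE p V (fun x => Yj p V c i x) := by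
      unfold IE
      rw [← integral_const_mul]
      congr 1
      funext x
      unfold Yj
      field_simp
    rw [e3]
    by_cases hi0 : V i = 0
    · have h1 : V.mulVec v i = 0 := by
        show V i ⬝ᵥ v = 0
        rw [hi0, zero_dotProduct]
      rw [h1]
      simp
    · refine mul_le_mul_of_nonneg_left (hR.r1 i hi0) ?_
      rw [mul_assoc]
      exact mul_nonneg (hR.c0 i).le (mul_self_nonneg _)
  refine (Finset.sum_le_sum h2).trans (le_of_eq ?_)
  rw [← Finset.sum_mul, se2_quad V c hT v v]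
  ring

/-- The lower bound. -/
theorem se1_lo (hIBP : ST_IBP) (hGD : ST_GD) (hIN0 : ST_IN0) (c : Fin n → ℝ) (hp : 2 < p)
    (hp' : p ≤ 11 / 5) (hV : Function.Injective V.mulVec) (hR : RW p V c) (hT : TT V V c = 1)
    (v : Fin m → ℝ) :
    (v ⬝ᵥ v) * Mp p V ≤ 26 / 25 * IE p V (fun x => (v ⬝ᵥ x) ^ 2) := by
  have hp3 : p ≤ 3 := by linarith
  obtain ⟨-, -, hc1, hc2, hg0, -, -, hb2, -⟩ := hGD p hp hp3
  obtain ⟨-, -, hint⟩ := hIN0 n m p V (by linarith) hV
  obtain ⟨D1, hD10, hD1⟩ := ibp_gr hGD hp hp3 V v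
  set P : (Fin m → ℝ) → ℝ := fun x => ∑ i, g1 p (V.mulVec x i) * V.mulVec v i with hP
  have hPc : Continuous P := continuous_finsetSum _ fun i _ => (hc1.comp (GB2.cont_row V i)).mul continuous_const
  have hvc : Continuous fun x : Fin m → ℝ => v ⬝ᵥ x := (se2_rg V c hT v).Fc
  have hvb : ∀ x : Fin m → ℝ, |v ⬝ᵥ x| ≤ (∑ a, |v a|) * (1 + ‖x‖) := by
    intro x
    have h1 : |v ⬝ᵥ x| ≤ (∑ a, |v a|) * ‖x‖ := by
      unfold dotProduct
      refine (Finset.abs_sum_le_sum_abs _ _).trans ?_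
      rw [Finset.sum_mul]
      apply Finset.sum_le_sum
      intro a _
      rw [abs_mul]
      exact mul_le_mul_of_nonneg_left (norm_le_pi_norm x a) (abs_nonneg _)
    have h2 : 0 ≤ ∑ a, |v a| := Finset.sum_nonneg fun _ _ => abs_nonneg _
    linarith
  set S : ℝ := ∑ a, |v a| with hS
  have hS0 : 0 ≤ S := Finset.sum_nonneg fun _ _ => abs_nonneg _
  have key := hIBP n m p V hp hp3 hV v (fun x => v ⬝ᵥ x) (fun _ => v ⬝ᵥ v) (S + |v ⬝ᵥ v|) 1 (fun x => by
      have h2 : (fun r : ℝ => v ⬝ᵥ (x + r • v)) = fun r : ℝ => v ⬝ᵥ x + r * (v ⬝ᵥ v) := by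
        funext r
        rw [dotProduct_add, dotProduct_smul, smul_eq_mul]
      rw [h2]
      have h3 := ((hasDerivAt_id (0 : ℝ)).mul_const (v ⬝ᵥ v)).const_add (v ⬝ᵥ x)
      rw [one_mul] at h3
      exact h3)
    hvc continuous_const (fun x => by
      have h0 := norm_nonneg x
      have h1 := abs_nonneg (v ⬝ᵥ v)
      rw [pow_one]
      exact (hvb x).trans (mul_le_mul_of_nonneg_right (by linarith) (by positivity)))
    (fun x => by
      have h0 := norm_nonneg x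
      have h1 := abs_nonneg (v ⬝ᵥ v)
      rw [pow_one]
      nlinarith [mul_nonneg h1 h0, mul_nonneg hS0 h0])
  have e1 : (v ⬝ᵥ v) * Mp p V = ∫ x, (v ⬝ᵥ x) * P x * ee p V x := by
    have e2 : IE p V (fun _ => v ⬝ᵥ v) = (v ⬝ᵥ v) * Mp p V := by
      unfold IE Mp
      rw [integral_const_mul]
    rw [← e2, key]
    rfl
  have i1 : Integrable (fun x => (v ⬝ᵥ x) ^ 2 * ee p V x) := by
    refine hint (fun x => (v ⬝ᵥ x) ^ 2) (S ^ 2) 2 (hvc.pow 2).aestronglyMeasurable (fun x => ?_)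
    have h0 := norm_nonneg x
    rw [abs_of_nonneg (sq_nonneg _), ← sq_abs, ← mul_pow]
    exact pow_le_pow_left₀ (abs_nonneg _) (hvb x) 2
  have i2 : Integrable (fun x => P x ^ 2 * ee p V x) := by
    refine hint (fun x => P x ^ 2) (D1 ^ 2) 4 (hPc.pow 2).aestronglyMeasurable (fun x => ?_)
    have h0 := norm_nonneg x
    rw [abs_of_nonneg (sq_nonneg _), ← sq_abs]
    have h1 := pow_le_pow_left₀ (abs_nonneg _) (hD1 x) 2
    calc |P x| ^ 2 ≤ (D1 * (1 + ‖x‖) ^ 2) ^ 2 := h1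
      _ = _ := by ring
  have i3 : Integrable (fun x => (v ⬝ᵥ x) * P x * ee p V x) := by
    refine hint (fun x => (v ⬝ᵥ x) * P x) (S * D1) 3 (hvc.mul hPc).aestronglyMeasurable (fun x => ?_)
    have h0 := norm_nonneg x
    rw [abs_mul]
    calc |v ⬝ᵥ x| * |P x| ≤ (S * (1 + ‖x‖)) * (D1 * (1 + ‖x‖) ^ 2) :=
          mul_le_mul (hvb x) (hD1 x) (abs_nonneg _) (by positivity)
      _ = _ := by ring
  have h1 : ∫ x, (v ⬝ᵥ x) * P x * ee p V x ≤
      ∫ x, (13 / 25 * ((v ⬝ᵥ x) ^ 2 * ee p V x) + 25 / 52 * (P x ^ 2 * ee p V x)) := by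
    refine integral_mono i3 ((i1.const_mul (13 / 25)).add (i2.const_mul (25 / 52))) fun x => ?_
    have he : 0 < ee p V x := Real.exp_pos _
    show (v ⬝ᵥ x) * P x * ee p V x ≤ 13 / 25 * ((v ⬝ᵥ x) ^ 2 * ee p V x) + 25 / 52 * (P x ^ 2 * ee p V x)
    have h2 : (v ⬝ᵥ x) * P x ≤ 13 / 25 * (v ⬝ᵥ x) ^ 2 + 25 / 52 * P x ^ 2 := by
      nlinarith [sq_nonneg (26 * (v ⬝ᵥ x) - 25 * P x)]
    have h3 := mul_le_mul_of_nonneg_right h2 he.le
    linarith
  rw [integral_add (i1.const_mul (13 / 25)) (i2.const_mul (25 / 52)), integral_const_mul,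
    integral_const_mul] at h1
  have h2 : ∫ x, P x ^ 2 * ee p V x ≤ 26 / 25 * (v ⬝ᵥ v) * Mp p V :=
    se1_P V hIBP hGD hIN0 c hp hp' hV hR hT v
  have h3 : IE p V (fun x => (v ⬝ᵥ x) ^ 2) = ∫ x, (v ⬝ᵥ x) ^ 2 * ee p V x := rfl
  rw [h3]
  rw [← e1] at h1
  linarith

end se1

theorem st_SE1 (hBLU : ST_BLU) (hIBP : ST_IBP) (hGD : ST_GD) (hIN0 : ST_IN0) (hIN1 : ST_IN1) : ST_SE1 := by
  intro n m p V c hp hp' hV hR hT v
  exact ⟨se1_up V hBLU hIN1 c hp hp' hV hR hT v, se1_lo V hIBP hGD hIN0 c hp hp' hV hR hT v⟩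

end Pool.Agent.Helper44.GJ
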