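import Pool.Agent.Helper8.GJ.SE2

/-! Module SE3: fourth moments. -/

open Finset MeasureTheory Filter Topology Matrix
open scoped ENNReal ContDiff

namespace Pool.Agent.Helper44.GJ

open Pool.Agent.Helper44.GF Pool.Agent.Helper44.GN Pool.Agent.Helper44.GH

section se3

variable {n m : ℕ}

theorem se3_dot (v : Fin m → ℝ) : ∃ C : ℝ, 0 ≤ C ∧ ∀ x : Fin m → ℝ, |v ⬝ᵥ x| ≤ C * ‖x‖ := by
  refine ⟨∑ a, |v a|, Finset.sum_nonneg fun a _ => abs_nonneg _, fun x => ?_⟩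
  show |∑ a, v a * x a| ≤ _
  refine (Finset.abs_sum_le_sum_abs _ _).trans ?_
  rw [Finset.sum_mul]
  refine Finset.sum_le_sum fun a _ => ?_
  rw [abs_mul]
  exact mul_le_mul_of_nonneg_left (by simpa using norm_le_pi_norm x a) (abs_nonneg _)

theorem se3_ctd (v : Fin m → ℝ) : Continuous fun x : Fin m → ℝ => v ⬝ᵥ x := by
  have : (fun x : Fin m → ℝ => v ⬝ᵥ x) = fun x => ∑ a, v a * x a := rfl
  rw [this]
  fun_prop

/-- The square of a linear function. -/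
theorem se3_rg (V : Matrix (Fin n) (Fin m) ℝ) (c : Fin n → ℝ) (h : TT V V c = 1) (v : Fin m → ℝ) :
    Rg V (fun x => (v ⬝ᵥ x) ^ 2) (fun i x => 2 * (v ⬝ᵥ x) * (c i * V.mulVec v i)) where
  Fc := (se3_ctd v).pow 2
  wc := fun i => (continuous_const.mul (se3_ctd v)).mul continuous_const
  gr := by
    obtain ⟨C, hC0, hC⟩ := se3_dot v
    set B : ℝ := ∑ i, |c i * V.mulVec v i| with hB
    have hB0 : 0 ≤ B := Finset.sum_nonneg fun _ _ => abs_nonneg _
    refine ⟨C ^ 2 + 2 * C * B, 2, fun x => ⟨?_, fun i => ?_⟩⟩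
    · have h1 := hC x
      have h2 := norm_nonneg x
      rw [abs_of_nonneg (sq_nonneg _), ← sq_abs]
      have h3 : |v ⬝ᵥ x| ^ 2 ≤ (C * ‖x‖) ^ 2 := pow_le_pow_left₀ (abs_nonneg _) h1 2
      have h4 : (C * ‖x‖) ^ 2 ≤ C ^ 2 * (1 + ‖x‖) ^ 2 := by
        rw [mul_pow]
        exact mul_le_mul_of_nonneg_left (pow_le_pow_left₀ h2 (by linarith) 2) (sq_nonneg _)
      have h5 : 0 ≤ 2 * C * B * (1 + ‖x‖) ^ 2 := by positivity
      nlinarith
    · have h1 : |c i * V.mulVec v i| ≤ B :=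
        Finset.single_le_sum (f := fun i => |c i * V.mulVec v i|) (fun _ _ => abs_nonneg _) (Finset.mem_univ i)
      have h2 := norm_nonneg x
      have h3 : |2 * (v ⬝ᵥ x) * (c i * V.mulVec v i)| ≤ 2 * (C * ‖x‖) * B := by
        rw [abs_mul, abs_mul, abs_of_pos (two_pos : (0 : ℝ) < 2)]
        exact mul_le_mul (mul_le_mul_of_nonneg_left (hC x) two_pos.le) h1 (abs_nonneg _) (by positivity)
      have h4 : ‖x‖ ≤ (1 + ‖x‖) ^ 2 := by nlinarith
      have h5 : 2 * (C * ‖x‖) * B ≤ 2 * C * B * (1 + ‖x‖) ^ 2 := by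
        have := mul_le_mul_of_nonneg_left h4 (show 0 ≤ 2 * C * B by positivity)
        linarith
      have h6 : 0 ≤ C ^ 2 * (1 + ‖x‖) ^ 2 := by positivity
      linarith
  dv := by
    intro x k
    have h1 : (∑ i, (fun i (x : Fin m → ℝ) => 2 * (v ⬝ᵥ x) * (c i * V.mulVec v i)) i x * V.mulVec k i) =
        2 * (v ⬝ᵥ x) * (v ⬝ᵥ k) := by
      rw [← se2_quad V c h v k, Finset.mul_sum]
      exact Finset.sum_congr rfl fun i _ => by ring
    rw [h1]
    have h2 : (fun r : ℝ => (v ⬝ᵥ (x + r • k)) ^ 2) = fun r : ℝ => (v ⬝ᵥ x + r * (v ⬝ᵥ k)) ^ 2 := by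
      funext r
      rw [dotProduct_add, dotProduct_smul, smul_eq_mul]
    rw [h2]
    have h3 := (((hasDerivAt_id (0 : ℝ)).mul_const (v ⬝ᵥ k)).const_add (v ⬝ᵥ x)).pow 2
    refine h3.congr_deriv ?_
    simp

theorem se3_int (hIN1 : ST_IN1) {p : ℝ} (hp : 2 < p) (hp' : p ≤ 11 / 5) {V : Matrix (Fin n) (Fin m) ℝ}
    (hV : Function.Injective V.mulVec) (c : Fin n → ℝ) (i : Fin n) (hi : V i ≠ 0) (v : Fin m → ℝ) :
    Integrable (fun x => (Yj p V c i x)⁻¹ * (v ⬝ᵥ x) ^ 2 * ee p V x) := by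
  obtain ⟨C, hC0, hC⟩ := se3_dot v
  have h1 := hIN1 n m p V hp (by linarith) hV i i hi hi (p - 2) 0 (by linarith) le_rfl (by linarith)
    (fun x => (v ⬝ᵥ x) ^ 2) (C ^ 2) 2 ((se3_ctd v).pow 2).aestronglyMeasurable (fun x => by
      rw [abs_of_nonneg (sq_nonneg _), ← sq_abs, ← mul_pow]
      refine pow_le_pow_left₀ (abs_nonneg _) ((hC x).trans ?_) 2
      exact mul_le_mul_of_nonneg_left (by linarith) hC0)
  have h2 := h1.const_mul (c i / (p * (p - 1)))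
  refine h2.congr (Eventually.of_forall fun x => ?_)
  show c i / (p * (p - 1)) * (|V.mulVec x i| ^ (-(p - 2)) * |V.mulVec x i| ^ (-(0 : ℝ)) * (v ⬝ᵥ x) ^ 2 * ee p V x) =
    (Yj p V c i x)⁻¹ * (v ⬝ᵥ x) ^ 2 * ee p V x
  rw [se2_yinv, neg_zero, Real.rpow_zero]
  ring

end se3

theorem st_SE3 (hBLU : ST_BLU) (hSE1 : ST_SE1) (hSE2 : ST_SE2) (hIN0 : ST_IN0) (hIN1 : ST_IN1) : ST_SE3 := by
  intro n m p V c hp hp' hV hR hT v
  obtain ⟨hM, -, -⟩ := hIN0 n m p V (by linarith) hV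
  obtain ⟨-, bl, -⟩ := hBLU n m p V hp (by linarith) hV _ _ (se3_rg V c hT v)
  have hvv : 0 ≤ v ⬝ᵥ v := by
    unfold dotProduct
    exact Finset.sum_nonneg fun a _ => mul_self_nonneg _
  -- the gradient term
  have h1 : IE p V (fun x => ∑ i, (fun i (x : Fin m → ℝ) => 2 * (v ⬝ᵥ x) * (c i * V.mulVec v i)) i x ^ 2 /
      g2 p (V.mulVec x i)) ≤ 24 / 5 * (v ⬝ᵥ v) ^ 2 * Mp p V := by
    have hterm : ∀ i, Integrable (fun x => 4 * (c i * V.mulVec v i * V.mulVec v i) *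
        ((Yj p V c i x)⁻¹ * (v ⬝ᵥ x) ^ 2 * ee p V x)) ∧
        ∫ x, 4 * (c i * V.mulVec v i * V.mulVec v i) * ((Yj p V c i x)⁻¹ * (v ⬝ᵥ x) ^ 2 * ee p V x) ≤
        4 * (c i * V.mulVec v i * V.mulVec v i) * (6 / 5 * (v ⬝ᵥ v) * Mp p V) := by
      intro i
      by_cases hi : V i = 0
      · have h1 : V.mulVec v i = 0 := by
          show V i ⬝ᵥ v = 0
          rw [hi, zero_dotProduct]
        simp only [h1, mul_zero, zero_mul, integral_zero, le_refl, and_true]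
        exact integrable_zero _ _ _
      · have j1 := se3_int hIN1 hp hp' hV c i hi v
        refine ⟨j1.const_mul _, ?_⟩
        rw [integral_const_mul]
        have hc : 0 ≤ 4 * (c i * V.mulVec v i * V.mulVec v i) := by
          rw [mul_assoc (c i)]
          exact mul_nonneg (by norm_num) (mul_nonneg (hR.c0 i).le (mul_self_nonneg _))
        exact mul_le_mul_of_nonneg_left (hSE2 n m p V c hp hp' hV hR hT i hi v) hc
    have e1 : IE p V (fun x => ∑ i, (fun i (x : Fin m → ℝ) => 2 * (v ⬝ᵥ x) * (c i * V.mulVec v i)) i x ^ 2 /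
        g2 p (V.mulVec x i)) = ∫ x, ∑ i, 4 * (c i * V.mulVec v i * V.mulVec v i) *
          ((Yj p V c i x)⁻¹ * (v ⬝ᵥ x) ^ 2 * ee p V x) := by
      unfold IE
      congr 1
      funext x
      beta_reduce
      rw [Finset.sum_mul]
      apply Finset.sum_congr rfl
      intro i _
      unfold Yj
      rw [inv_div]
      ring
    rw [e1, integral_finsetSum _ fun i _ => (hterm i).1]
    refine (Finset.sum_le_sum fun i _ => (hterm i).2).trans ?_
    rw [← Finset.sum_mul, ← Finset.mul_sum, se2_quad V c hT v v]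
    apply le_of_eq
    ring
  have h2 := (hSE1 n m p V c hp hp' hV hR hT v).1
  have h3 : 0 ≤ IE p V (fun x => (v ⬝ᵥ x) ^ 2) :=
    integral_nonneg fun x => mul_nonneg (sq_nonneg _) (Real.exp_pos _).le
  have h4 : IE p V (fun x => (v ⬝ᵥ x) ^ 2) ^ 2 ≤ (26 / 25 * (v ⬝ᵥ v) * Mp p V) ^ 2 := pow_le_pow_left₀ h3 h2 2
  have e2 : IE p V (fun x => ((v ⬝ᵥ x) ^ 2) ^ 2) = IE p V (fun x => (v ⬝ᵥ x) ^ 4) := by
    congr 1
    funext x
    ring
  rw [e2] at bl
  have h5 := mul_le_mul_of_nonneg_left h1 hM.le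
  have h6 : Mp p V * IE p V (fun x => (v ⬝ᵥ x) ^ 4) ≤
      Mp p V * ((24 / 5 + (26 / 25) ^ 2) * (v ⬝ᵥ v) ^ 2 * Mp p V) := by
    nlinarith
  exact le_of_mul_le_mul_left h6 hM

end Pool.Agent.Helper44.GJ
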