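import Pool.Agent.Helper51.GJ.BLU

/-! Module BLC: the Brascamp-Lieb inequality, polynomial growth. -/

set_option autoImplicit false

open Finset MeasureTheory Filter Topology Matrix
open scoped ENNReal ContDiff

namespace Pool.Agent.Helper44.GJ

open Pool.Agent.Helper44.GF Pool.Agent.Helper44.GN Pool.Agent.Helper44.GH

/-! ### the cutoff -/

theorem blc_sabs (s : ℝ) : HasDerivAt (fun s : ℝ => s * |s|) (2 * |s|) s := by
  rcases lt_trichotomy s 0 with h | h | h
  · have h1 : HasDerivAt (fun s : ℝ => -(s ^ 2)) (-(2 * s)) s := by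
      have := (hasDerivAt_pow 2 s).neg
      refine this.congr_deriv ?_
      norm_num
    rw [abs_of_neg h]
    have h2 : 2 * -s = -(2 * s) := by ring
    rw [h2]
    refine h1.congr_of_eventuallyEq ?_
    filter_upwards [Iio_mem_nhds h] with u hu
    rw [abs_of_neg hu]
    ring
  · subst h
    rw [abs_zero, mul_zero, hasDerivAt_iff_tendsto_slope]
    have h1 : Tendsto (fun s : ℝ => |s|) (𝓝[≠] 0) (𝓝 0) := by
      have := (continuous_abs.tendsto (0 : ℝ))
      rw [abs_zero] at this
      exact this.mono_left nhdsWithin_le_nhds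
    refine h1.congr' ?_
    filter_upwards [self_mem_nhdsWithin] with u hu
    have hu' : u ≠ 0 := hu
    rw [slope_def_field]
    field_simp
    ring
  · have h1 : HasDerivAt (fun s : ℝ => s ^ 2) (2 * s) s := by
      have := (hasDerivAt_pow 2 s)
      refine this.congr_deriv ?_
      norm_num
    rw [abs_of_pos h]
    refine h1.congr_of_eventuallyEq ?_
    filter_upwards [Ioi_mem_nhds h] with u hu
    rw [abs_of_pos hu]
    ring

/-- the cutoff function -/
noncomputable def blcP (u : ℝ) : ℝ := max 0 (1 - u) ^ 2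

/-- its derivative -/
noncomputable def blcP' (u : ℝ) : ℝ := -(2 * max 0 (1 - u))

theorem blc_der (u : ℝ) : HasDerivAt blcP (blcP' u) u := by
  have h1 : blcP = fun u : ℝ => 1 / 2 * ((1 - u) ^ 2 + (1 - u) * |1 - u|) := by
    funext u
    unfold blcP
    rcases le_total 0 (1 - u) with h | h
    · rw [max_eq_right h, abs_of_nonneg h]
      ring
    · rw [max_eq_left h, abs_of_nonpos h]
      ring
  have h2 : HasDerivAt (fun u : ℝ => 1 - u) (-1) u := by
    have := (hasDerivAt_id u).const_sub 1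
    exact this
  have h3 : HasDerivAt (fun u : ℝ => (1 - u) * |1 - u|) (2 * |1 - u| * -1) u := (blc_sabs (1 - u)).comp u h2
  have h4 : HasDerivAt (fun u : ℝ => (1 - u) ^ 2) (2 * (1 - u) * -1) u := by
    have := h2.pow 2
    refine this.congr_deriv ?_
    norm_num
  rw [h1]
  refine ((h4.add h3).const_mul (1 / 2)).congr_deriv ?_
  unfold blcP'
  rcases le_total 0 (1 - u) with h | h
  · rw [max_eq_right h, abs_of_nonneg h]
    ring
  · rw [max_eq_left h, abs_of_nonpos h]
    ring

theorem blc_cP : Continuous blcP := by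
  unfold blcP
  fun_prop

theorem blc_cP' : Continuous blcP' := by
  unfold blcP'
  fun_prop

theorem blc_P0 {u : ℝ} (hu : 0 ≤ u) : 0 ≤ blcP u ∧ blcP u ≤ 1 := by
  unfold blcP
  have h1 : 0 ≤ max 0 (1 - u) := le_max_left _ _
  have h2 : max 0 (1 - u) ≤ 1 := max_le zero_le_one (by linarith)
  exact ⟨by positivity, pow_le_one₀ h1 h2⟩

theorem blc_P'0 {u : ℝ} (hu : 0 ≤ u) : |blcP' u| ≤ 2 := by
  unfold blcP'
  have h1 : 0 ≤ max 0 (1 - u) := le_max_left _ _
  have h2 : max 0 (1 - u) ≤ 1 := max_le zero_le_one (by linarith)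
  rw [abs_neg, abs_of_nonneg (by positivity)]
  linarith

theorem blc_Pz {u : ℝ} (hu : 1 ≤ u) : blcP u = 0 ∧ blcP' u = 0 := by
  unfold blcP blcP'
  rw [max_eq_left (by linarith)]
  norm_num

section blc

variable {n m : ℕ} {p : ℝ} (V : Matrix (Fin n) (Fin m) ℝ)

/-- the argument of the cutoff -/
noncomputable def blcQ (a : ℝ) (x : Fin m → ℝ) : ℝ := a * ∑ i, V.mulVec x i ^ 2

theorem blc_Q0 {a : ℝ} (ha : 0 ≤ a) (x : Fin m → ℝ) : 0 ≤ blcQ V a x :=
  mul_nonneg ha (Finset.sum_nonneg fun _ _ => sq_nonneg _)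

theorem blc_cQ (a : ℝ) : Continuous (blcQ V a) := by
  unfold blcQ
  exact continuous_const.mul (continuous_finsetSum _ fun i _ => (GB2.cont_row V i).pow 2)

theorem blc_dQ (a : ℝ) (x h : Fin m → ℝ) : HasDerivAt (fun r : ℝ => blcQ V a (x + r • h))
    (a * ∑ i, 2 * V.mulVec x i * V.mulVec h i) 0 := by
  unfold blcQ
  refine HasDerivAt.const_mul a (HasDerivAt.fun_sum fun i _ => ?_)
  have h2 : (fun r : ℝ => V.mulVec (x + r • h) i ^ 2) = fun r : ℝ => (V.mulVec x i + r * V.mulVec h i) ^ 2 := by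
    funext r
    rw [GB2.mulVec_add_smul]
  rw [h2]
  have h3 : HasDerivAt (fun r : ℝ => V.mulVec x i + r * V.mulVec h i) (V.mulVec h i) 0 := by
    have h4 := ((hasDerivAt_id (0 : ℝ)).mul_const (V.mulVec h i)).const_add (V.mulVec x i)
    rw [one_mul] at h4
    exact h4
  refine (h3.pow 2).congr_deriv ?_
  norm_num

/-- the gradient data of the cut off function -/
noncomputable def blcW (a : ℝ) (F : (Fin m → ℝ) → ℝ) (w : Fin n → (Fin m → ℝ) → ℝ) (i : Fin n) (x : Fin m → ℝ) : ℝ :=
  blcP (blcQ V a x) * w i x + F x * (blcP' (blcQ V a x) * (2 * a * V.mulVec x i))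

theorem blc_dv (a : ℝ) (F : (Fin m → ℝ) → ℝ) (w : Fin n → (Fin m → ℝ) → ℝ) (hR : Rg V F w) (x h : Fin m → ℝ) :
    HasDerivAt (fun r : ℝ => blcP (blcQ V a (x + r • h)) * F (x + r • h))
      (∑ i, blcW V a F w i x * V.mulVec h i) 0 := by
  have h1 : HasDerivAt (fun r : ℝ => blcP (blcQ V a (x + r • h)))
      (blcP' (blcQ V a x) * (a * ∑ i, 2 * V.mulVec x i * V.mulVec h i)) 0 := by
    have h2 : HasDerivAt blcP (blcP' (blcQ V a x)) (blcQ V a (x + (0 : ℝ) • h)) := by
      rw [zero_smul, add_zero]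
      exact blc_der _
    exact h2.comp (0 : ℝ) (blc_dQ V a x h)
  have h2 := h1.mul (hR.dv x h)
  refine h2.congr_deriv ?_
  rw [zero_smul, add_zero, Finset.mul_sum, Finset.mul_sum, Finset.sum_mul, Finset.mul_sum,
    ← Finset.sum_add_distrib]
  refine Finset.sum_congr rfl fun i _ => ?_
  unfold blcW
  ring

theorem blc_cs (hGRW : ST_GRW) (hV : Function.Injective V.mulVec) {a : ℝ} (ha : 0 < a) (G : (Fin m → ℝ) → ℝ)
    (hG : ∀ x, 1 ≤ blcQ V a x → G x = 0) : HasCompactSupport G := by
  obtain ⟨r, c, hr, hc, hg⟩ := hGRW n m V hV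
  refine HasCompactSupport.intro (isCompact_closedBall (0 : Fin m → ℝ) (Real.sqrt (1 / a) / c)) fun x hx => ?_
  apply hG
  rw [Metric.mem_closedBall, dist_zero_right, not_le, div_lt_iff₀ hc] at hx
  have h1 := (hg V (fun i a => by rw [sub_self, abs_zero]; exact hr) x).1
  have h2 : Real.sqrt (1 / a) < ‖V.mulVec x‖ := by
    rw [mul_comm] at hx
    linarith
  have h3 : ∃ i, Real.sqrt (1 / a) < |V.mulVec x i| := by
    by_contra hcon
    push Not at hcon
    have h4 : ‖V.mulVec x‖ ≤ Real.sqrt (1 / a) := by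
      rw [pi_norm_le_iff_of_nonneg (Real.sqrt_nonneg _)]
      intro i
      rw [Real.norm_eq_abs]
      exact hcon i
    linarith
  obtain ⟨i, hi⟩ := h3
  have h4 : 1 / a ≤ V.mulVec x i ^ 2 := by
    have h5 := pow_le_pow_left₀ (Real.sqrt_nonneg _) hi.le 2
    rw [Real.sq_sqrt (by positivity), sq_abs] at h5
    exact h5
  have h5 : V.mulVec x i ^ 2 ≤ ∑ i, V.mulVec x i ^ 2 :=
    Finset.single_le_sum (f := fun i => V.mulVec x i ^ 2) (fun _ _ => sq_nonneg _) (Finset.mem_univ i)
  unfold blcQ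
  have h6 := mul_le_mul_of_nonneg_left (h4.trans h5) ha.le
  rw [mul_one_div, div_self ha.ne'] at h6
  exact h6

theorem blc_es0 {σ : Fin n → ℝ} (hσ : ∀ i, 0 ≤ σ i) (x : Fin m → ℝ) : 0 < es p V σ x ∧ es p V σ x ≤ ee p V x := by
  have h1 : 0 < ee p V x := Real.exp_pos _
  unfold es
  refine ⟨mul_pos (Real.exp_pos _) h1, ?_⟩
  have h2 : Real.exp (-∑ i, σ i * V.mulVec x i ^ 2) ≤ 1 := by
    rw [Real.exp_le_one_iff]
    have : 0 ≤ ∑ i, σ i * V.mulVec x i ^ 2 := Finset.sum_nonneg fun i _ => mul_nonneg (hσ i) (sq_nonneg _)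
    linarith
  calc _ ≤ 1 * ee p V x := mul_le_mul_of_nonneg_right h2 h1.le
    _ = _ := one_mul _

theorem blc_ces (hp : 2 < p) (σ : Fin n → ℝ) : Continuous (es p V σ) := by
  unfold es
  refine Continuous.mul (Real.continuous_exp.comp (Continuous.neg (continuous_finsetSum _ fun i _ => ?_)))
    (GB2.cont_ee hp V)
  exact continuous_const.mul ((GB2.cont_row V i).pow 2)

theorem blc_int {σ : Fin n → ℝ} (hσ : ∀ i, 0 ≤ σ i) {G : (Fin m → ℝ) → ℝ}
    (h : Integrable (fun x => G x * ee p V x)) : Integrable (fun x => G x * es p V σ x) := by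
  have h1 : (fun x => G x * es p V σ x) =
      fun x => Real.exp (-∑ i, σ i * V.mulVec x i ^ 2) * (G x * ee p V x) := by
    funext x
    unfold es
    ring
  rw [h1]
  have hc : Continuous fun x : Fin m → ℝ => Real.exp (-∑ i, σ i * V.mulVec x i ^ 2) :=
    Real.continuous_exp.comp (Continuous.neg (continuous_finsetSum _ fun i _ =>
      continuous_const.mul ((GB2.cont_row V i).pow 2)))
  refine h.mono (hc.aestronglyMeasurable.mul h.aestronglyMeasurable) (Eventually.of_forall fun x => ?_)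
  rw [norm_mul, Real.norm_eq_abs, abs_of_pos (Real.exp_pos _)]
  have h2 : Real.exp (-∑ i, σ i * V.mulVec x i ^ 2) ≤ 1 := by
    rw [Real.exp_le_one_iff]
    have : 0 ≤ ∑ i, σ i * V.mulVec x i ^ 2 := Finset.sum_nonneg fun i _ => mul_nonneg (hσ i) (sq_nonneg _)
    linarith
  calc _ ≤ 1 * ‖G x * ee p V x‖ := mul_le_mul_of_nonneg_right h2 (norm_nonneg _)
    _ = _ := one_mul _

end blc

theorem st_BLC (hBLB : ST_BLB) (hIN0 : ST_IN0) (hIN1 : ST_IN1) (hGD : ST_GD) (hGRW : ST_GRW) : ST_BLC := by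
  intro n m p V hp hp3 hV σ hσ F w hR
  obtain ⟨-, -, hint⟩ := hIN0 n m p V (by linarith) hV
  obtain ⟨-, -, -, hc2, hg0, -⟩ := hGD p hp hp3.le
  obtain ⟨C, k, hb⟩ := hR.gr
  obtain ⟨A, hA1, hA⟩ := GB2.row_le V
  have hC0 : 0 ≤ C := by
    have := (hb 0).1
    rw [norm_zero, add_zero, one_pow, mul_one] at this
    exact (abs_nonneg _).trans this
  set a : ℕ → ℝ := fun N => 1 / ((N : ℝ) + 1) with ha
  have ha0 : ∀ N, 0 < a N := fun N => by rw [ha]; positivity
  have ha1 : ∀ N, a N ≤ 1 := fun N => by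
    rw [ha]
    show 1 / ((N : ℝ) + 1) ≤ 1
    rw [div_le_one (by positivity)]
    have : (0 : ℝ) ≤ N := Nat.cast_nonneg N
    linarith
  have hat : Tendsto a atTop (𝓝 0) := tendsto_one_div_add_atTop_nhds_zero_nat
  have hQt : ∀ x, Tendsto (fun N => blcQ V (a N) x) atTop (𝓝 0) := by
    intro x
    have := hat.mul_const (∑ i, V.mulVec x i ^ 2)
    rw [zero_mul] at this
    exact this
  have hPt : ∀ x, Tendsto (fun N => blcP (blcQ V (a N) x)) atTop (𝓝 1) := by
    intro x
    have h1 := (blc_cP.tendsto 0).comp (hQt x)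
    have h2 : blcP 0 = 1 := by
      unfold blcP
      norm_num
    rw [h2] at h1
    exact h1
  have hP't : ∀ x i, Tendsto (fun N => blcP' (blcQ V (a N) x) * (2 * a N * V.mulVec x i)) atTop (𝓝 0) := by
    intro x i
    have h1 := (blc_cP'.tendsto 0).comp (hQt x)
    have h2 : Tendsto (fun N => 2 * a N * V.mulVec x i) atTop (𝓝 0) := by
      have := (hat.const_mul 2).mul_const (V.mulVec x i)
      rw [mul_zero, zero_mul] at this
      exact this
    have h3 := h1.mul h2
    rw [mul_zero] at h3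
    exact h3
  -- the inequality for the cut off functions
  have key : ∀ N, (∫ x, es p V σ x) * (∫ x, (blcP (blcQ V (a N) x) * F x) ^ 2 * es p V σ x) -
      (∫ x, (blcP (blcQ V (a N) x) * F x) * es p V σ x) ^ 2 ≤
      (∫ x, es p V σ x) * ∫ x, (∑ i, blcW V (a N) F w i x ^ 2 / g2 p (V.mulVec x i)) * es p V σ x := by
    intro N
    refine hBLB n m p V hp hp3 hV σ hσ (fun x => blcP (blcQ V (a N) x) * F x) (blcW V (a N) F w)
      ((blc_cP.comp (blc_cQ V (a N))).mul hR.Fc)
      (blc_cs V hGRW hV (ha0 N) _ fun x hx => by rw [(blc_Pz hx).1, zero_mul]) (fun i => ?_) (fun i => ?_)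
      (fun x h => blc_dv V (a N) F w hR x h)
    · unfold blcW
      exact ((blc_cP.comp (blc_cQ V (a N))).mul (hR.wc i)).add (hR.Fc.mul ((blc_cP'.comp (blc_cQ V (a N))).mul
        (continuous_const.mul (GB2.cont_row V i))))
    · refine blc_cs V hGRW hV (ha0 N) _ fun x hx => ?_
      unfold blcW
      rw [(blc_Pz hx).1, (blc_Pz hx).2]
      ring
  -- integrability of the limits
  have iF2 : Integrable (fun x => F x ^ 2 * ee p V x) := by
    refine hint (fun x => F x ^ 2) (C ^ 2) (k * 2) (hR.Fc.pow 2).aestronglyMeasurable fun x => ?_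
    rw [abs_of_nonneg (sq_nonneg _), ← sq_abs, pow_mul, ← mul_pow]
    exact pow_le_pow_left₀ (abs_nonneg _) (hb x).1 2
  have iF : Integrable (fun x => |F x| * ee p V x) := by
    refine hint (fun x => |F x|) C k (continuous_abs.comp hR.Fc).aestronglyMeasurable fun x => ?_
    rw [abs_abs]
    exact (hb x).1
  have iw : ∀ i, Integrable (fun x => w i x ^ 2 / g2 p (V.mulVec x i) * ee p V x) := fun i =>
    blu_int hIN1 hp hp3 V hV (w i) (hR.wc i) C k (fun x => (hb x).2 i) i
  have iT : ∀ i, Integrable (fun x => (F x * V.mulVec x i) ^ 2 / g2 p (V.mulVec x i) * ee p V x) := fun i =>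
    blu_int hIN1 hp hp3 V hV (fun x => F x * V.mulVec x i) (hR.Fc.mul (GB2.cont_row V i)) (C * A) (k + 1)
      (fun x => by
        have h0 := norm_nonneg x
        have h1 : |V.mulVec x i| ≤ A * (1 + ‖x‖) := by
          have := hA x i
          linarith
        rw [abs_mul]
        calc |F x| * |V.mulVec x i| ≤ (C * (1 + ‖x‖) ^ k) * (A * (1 + ‖x‖)) :=
              mul_le_mul (hb x).1 h1 (abs_nonneg _) (by positivity)
          _ = _ := by ring) i
  -- the three limits
  have t1 : Tendsto (fun N => ∫ x, (blcP (blcQ V (a N) x) * F x) ^ 2 * es p V σ x) atTop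
      (𝓝 (∫ x, F x ^ 2 * es p V σ x)) := by
    refine tendsto_integral_of_dominated_convergence (fun x => F x ^ 2 * es p V σ x)
      (fun N => ((((blc_cP.comp (blc_cQ V (a N))).mul hR.Fc).pow 2).mul (blc_ces V hp σ)).aestronglyMeasurable)
      (blc_int V hσ iF2) (fun N => Eventually.of_forall fun x => ?_) (Eventually.of_forall fun x => ?_)
    · have h1 := (blc_es0 (p := p) V hσ x).1
      obtain ⟨h2, h3⟩ := blc_P0 (blc_Q0 V (ha0 N).le x)
      rw [Real.norm_eq_abs, abs_of_nonneg (by positivity)]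
      apply mul_le_mul_of_nonneg_right _ h1.le
      rw [mul_pow]
      have h4 : blcP (blcQ V (a N) x) ^ 2 ≤ 1 := pow_le_one₀ h2 h3
      calc _ ≤ 1 * F x ^ 2 := mul_le_mul_of_nonneg_right h4 (sq_nonneg _)
        _ = _ := one_mul _
    · have h1 := (((hPt x).mul_const (F x)).pow 2).mul_const (es p V σ x)
      rw [one_mul] at h1
      exact h1
  have t2 : Tendsto (fun N => ∫ x, (blcP (blcQ V (a N) x) * F x) * es p V σ x) atTop
      (𝓝 (∫ x, F x * es p V σ x)) := by
    refine tendsto_integral_of_dominated_convergence (fun x => |F x| * es p V σ x)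
      (fun N => (((blc_cP.comp (blc_cQ V (a N))).mul hR.Fc).mul (blc_ces V hp σ)).aestronglyMeasurable)
      (blc_int V hσ iF) (fun N => Eventually.of_forall fun x => ?_) (Eventually.of_forall fun x => ?_)
    · have h1 := (blc_es0 (p := p) V hσ x).1
      obtain ⟨h2, h3⟩ := blc_P0 (blc_Q0 V (ha0 N).le x)
      rw [Real.norm_eq_abs, abs_mul, abs_mul, abs_of_pos h1, abs_of_nonneg h2]
      apply mul_le_mul_of_nonneg_right _ h1.le
      calc _ ≤ 1 * |F x| := mul_le_mul_of_nonneg_right h3 (abs_nonneg _)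
        _ = _ := one_mul _
    · have h1 := ((hPt x).mul_const (F x)).mul_const (es p V σ x)
      rw [one_mul] at h1
      exact h1
  have t3 : Tendsto (fun N => ∫ x, (∑ i, blcW V (a N) F w i x ^ 2 / g2 p (V.mulVec x i)) * es p V σ x) atTop
      (𝓝 (∫ x, (∑ i, w i x ^ 2 / g2 p (V.mulVec x i)) * es p V σ x)) := by
    have iB : Integrable (fun x => (∑ i, (2 * (w i x ^ 2 / g2 p (V.mulVec x i)) +
        32 * ((F x * V.mulVec x i) ^ 2 / g2 p (V.mulVec x i)))) * es p V σ x) := by
      have h1 : (fun x => (∑ i, (2 * (w i x ^ 2 / g2 p (V.mulVec x i)) +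
        32 * ((F x * V.mulVec x i) ^ 2 / g2 p (V.mulVec x i)))) * es p V σ x) = fun x =>
          ∑ i, (2 * (w i x ^ 2 / g2 p (V.mulVec x i) * es p V σ x) +
            32 * ((F x * V.mulVec x i) ^ 2 / g2 p (V.mulVec x i) * es p V σ x)) := by
        funext x
        rw [Finset.sum_mul]
        exact Finset.sum_congr rfl fun i _ => by ring
      rw [h1]
      exact integrable_finsetSum _ fun i _ =>
        ((blc_int V hσ (iw i)).const_mul 2).add ((blc_int V hσ (iT i)).const_mul 32)
    have hms : ∀ N, AEStronglyMeasurable (fun x =>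
        (∑ i, blcW V (a N) F w i x ^ 2 / g2 p (V.mulVec x i)) * es p V σ x) volume := by
      intro N
      have hm : Measurable fun x => (∑ i, blcW V (a N) F w i x ^ 2 / g2 p (V.mulVec x i)) * es p V σ x := by
        refine Measurable.mul ?_ (blc_ces V hp σ).measurable
        refine Finset.measurable_sum _ fun i _ => ?_
        have hw : Continuous (blcW V (a N) F w i) := by
          unfold blcW
          exact ((blc_cP.comp (blc_cQ V (a N))).mul (hR.wc i)).add
            (hR.Fc.mul ((blc_cP'.comp (blc_cQ V (a N))).mul (continuous_const.mul (GB2.cont_row V i))))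
        exact (hw.pow 2).measurable.div (hc2.comp (GB2.cont_row V i)).measurable
      exact hm.aestronglyMeasurable
    refine tendsto_integral_of_dominated_convergence _ hms iB (fun N => Eventually.of_forall fun x => ?_)
      (Eventually.of_forall fun x => ?_)
    · have h1 := (blc_es0 (p := p) V hσ x).1
      have h5 : ∀ i, 0 ≤ blcW V (a N) F w i x ^ 2 / g2 p (V.mulVec x i) := fun i =>
        div_nonneg (sq_nonneg _) (hg0 _)
      rw [Real.norm_eq_abs, abs_of_nonneg (mul_nonneg (Finset.sum_nonneg fun i _ => h5 i) h1.le)]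
      apply mul_le_mul_of_nonneg_right _ h1.le
      refine Finset.sum_le_sum fun i _ => ?_
      obtain ⟨h2, h3⟩ := blc_P0 (blc_Q0 V (ha0 N).le x)
      have h4 := blc_P'0 (blc_Q0 V (ha0 N).le x)
      have h6 : blcW V (a N) F w i x ^ 2 ≤ 2 * w i x ^ 2 + 32 * (F x * V.mulVec x i) ^ 2 := by
        have e1 : blcW V (a N) F w i x = blcP (blcQ V (a N) x) * w i x +
            (blcP' (blcQ V (a N) x) * (2 * a N)) * (F x * V.mulVec x i) := by
          unfold blcW
          ring
        have e2 : (blcP (blcQ V (a N) x) * w i x) ^ 2 ≤ w i x ^ 2 := by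
          rw [mul_pow]
          have h4 : blcP (blcQ V (a N) x) ^ 2 ≤ 1 := pow_le_one₀ h2 h3
          calc _ ≤ 1 * w i x ^ 2 := mul_le_mul_of_nonneg_right h4 (sq_nonneg _)
            _ = _ := one_mul _
        have e3 : ((blcP' (blcQ V (a N) x) * (2 * a N)) * (F x * V.mulVec x i)) ^ 2 ≤
            16 * (F x * V.mulVec x i) ^ 2 := by
          rw [mul_pow]
          apply mul_le_mul_of_nonneg_right _ (sq_nonneg _)
          have e4 : |blcP' (blcQ V (a N) x) * (2 * a N)| ≤ 4 := by
            rw [abs_mul, abs_of_nonneg (by have := ha0 N; positivity : 0 ≤ 2 * a N)]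
            have h8 : 2 * a N ≤ 2 := by have := ha1 N; linarith
            have h9 : 0 ≤ 2 * a N := by have := ha0 N; positivity
            calc _ ≤ 2 * 2 := mul_le_mul h4 h8 h9 (by norm_num)
              _ = 4 := by norm_num
          rw [← sq_abs]
          calc _ ≤ (4 : ℝ) ^ 2 := pow_le_pow_left₀ (abs_nonneg _) e4 2
            _ = 16 := by norm_num
        rw [e1]
        have e5 := sq_nonneg (blcP (blcQ V (a N) x) * w i x -
          (blcP' (blcQ V (a N) x) * (2 * a N)) * (F x * V.mulVec x i))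
        nlinarith
      have h7 := div_le_div_of_nonneg_right h6 (hg0 (V.mulVec x i))
      refine h7.trans (le_of_eq ?_)
      ring
    · refine Tendsto.mul_const _ (tendsto_finsetSum _ fun i _ => ?_)
      have h1 : Tendsto (fun N => blcW V (a N) F w i x) atTop (𝓝 (w i x)) := by
        have h2 := ((hPt x).mul_const (w i x)).add ((hP't x i).const_mul (F x))
        rw [one_mul, mul_zero, add_zero] at h2
        exact h2
      exact (h1.pow 2).div_const _
  refine le_of_tendsto_of_tendsto' ((t1.const_mul _).sub (t2.pow 2)) (t3.const_mul _) key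

end Pool.Agent.Helper44.GJ
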